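import Pool.Agent.MP_ea150c_mp.H16.FSpec

/-! Assembly of the frame theorem from its pieces. -/

namespace Pool.Agent.MP_ea150c_mp.H16

open Pool.Agent.MP_ea150c_mp.H49

noncomputable section

section Sm
variable {O E : Type} [CommRing O] [AddCommGroup E] [Module O E]

theorem mem_sm {c : O} {M : Submodule O E} {x : E} : x ∈ sm c M ↔ ∃ y ∈ M, c • y = x := by
  simp [sm]

theorem sm_anti (c : O) {a b : ℕ} (h : a ≤ b) (M : Submodule O E) :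
    sm (c ^ b) M ≤ sm (c ^ a) M := by
  intro x hx
  obtain ⟨y, hy, rfl⟩ := mem_sm.1 hx
  refine mem_sm.2 ⟨c ^ (b - a) • y, M.smul_mem _ hy, ?_⟩
  rw [smul_smul, ← pow_add, Nat.add_sub_cancel' h]

variable {I : Type} [LinearOrder I]

theorem coch_choose {M : Finset I → Submodule O E} (P : Finset I → E → Prop)
    (h : ∀ J, J.Nonempty → ∃ y ∈ M J, P J y) : ∃ y ∈ Coch M, ∀ J, J.Nonempty → P J (y J) := by
  classical
  choose y hy hP using h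
  refine ⟨fun J => if hJ : J.Nonempty then y J hJ else 0, ⟨by simp, fun J => ?_⟩, fun J hJ => ?_⟩
  · by_cases hJ : J.Nonempty
    · simp only [dif_pos hJ]; exact hy J hJ
    · simp only [dif_neg hJ]; exact (M J).zero_mem
  · simp only [dif_pos hJ]; exact hP J hJ

theorem coch_ext {M : Finset I → Submodule O E} {x y : Coch M}
    (h : ∀ J, J.Nonempty → x.1 J = y.1 J) : x = y := by
  apply Subtype.ext
  funext J
  rcases J.eq_empty_or_nonempty with rfl | hJ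
  · rw [x.2.1, y.2.1]
  · exact h J hJ

theorem coch_le {M M' : Finset I → Submodule O E} (h : ∀ J, M J ≤ M' J) : Coch M ≤ Coch M' :=
  fun _ hx => ⟨hx.1, fun J => h J (hx.2 J)⟩

end Sm

theorem altSum_sub {I R : Type} [Fintype I] [DecidableEq I] [CommRing R] (a b : Finset I → R) :
    altSum a - altSum b = altSum fun J => a J - b J := by
  simp only [altSum, ← Finset.sum_sub_distrib, mul_sub]

theorem dvd_altSum {I R : Type} [Fintype I] [DecidableEq I] [CommRing R] (a : Finset I → R)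
    (c : R) (h : ∀ J, J.Nonempty → c ∣ a J) : c ∣ altSum a :=
  Finset.dvd_sum fun J hJ => Dvd.dvd.mul_left (h J (Finset.mem_filter.1 hJ).2) _

theorem val_bound (p : ℕ) [Fact p.Prime] (hp : 7 ≤ p) (S M : ℕ) (h : 3 * S ≤ M) :
    S + 2 * padicValNat p M.factorial ≤ nu M := by
  have h1 := sub_one_mul_padicValNat_factorial (p := p) M
  have h2 : 6 * padicValNat p M.factorial ≤ (p - 1) * padicValNat p M.factorial :=
    Nat.mul_le_mul_right _ (by omega)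
  have h3 : 6 * padicValNat p M.factorial ≤ M := by omega
  unfold nu
  omega

section Frame
variable {p : ℕ} [Fact p.Prime] {A B Γ I ι : Type} {σ : I → Type}
  [CommRing A] [Algebra ℤ_[p] A] [AddCommGroup B] [Module A B] [Module ℤ_[p] B]
  [IsScalarTower ℤ_[p] A B] [AddCommGroup Γ] [LinearOrder I] [Fintype I] [Fintype ι]
  [DecidableEq ι] [∀ j, Fintype (σ j)] [∀ j, DecidableEq (σ j)]
  {F : FrameData p A B Γ I ι σ}

theorem tf_of {E : Type} [AddCommGroup E] [Module ℤ_[p] E]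
    (h : ∀ x : E, (p : ℤ_[p]) • x = 0 → x = 0) : Module.IsTorsionFree ℤ_[p] E := by
  have hk : ∀ (n : ℕ) (x : E), (p : ℤ_[p]) ^ n • x = 0 → x = 0 := by
    intro n
    induction n with
    | zero => intro x hx; simpa using hx
    | succ n ih => intro x hx; rw [pow_succ, mul_smul] at hx; exact h _ (ih _ hx)
  refine Module.IsTorsionFree.of_smul_eq_zero fun a x hx => ?_
  by_cases ha : a = 0
  · exact Or.inl ha
  · right
    rw [PadicInt.unitCoeff_spec ha, mul_smul] at hx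
    exact hk _ _ ((Units.isUnit _).smul_eq_zero.1 hx)

theorem ff_of {E : Type} [AddCommGroup E] [Module ℤ_[p] E]
    (h : ∀ x : E, (p : ℤ_[p]) • x = 0 → x = 0) (M : Submodule ℤ_[p] E) (hM : M.FG) :
    Module.Finite ℤ_[p] M ∧ Module.Free ℤ_[p] M := by
  have h1 : Module.Finite ℤ_[p] M := Module.Finite.iff_fg.2 hM
  have h2 := tf_of h
  exact ⟨h1, inferInstance⟩

theorem tfY (hL : F.AxL) (x : (A →ₗ[ℤ_[p]] B) × (ι → B)) (hx : (p : ℤ_[p]) • x = 0) : x = 0 := by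
  ext r
  · exact hL.tf _ (LinearMap.congr_fun (congrArg Prod.fst hx) r)
  · exact hL.tf _ (congrFun (congrArg Prod.snd hx) r)

theorem fgLt (hL : F.AxL) (f2 : F.F2) (J : Finset I) (hJ : J.Nonempty) (M : ℕ) :
    (F.Lt J M).FG := by
  refine (f2.2.2.2.2 J 0 M hJ).prod (Submodule.fg_pi fun _ => ?_)
  split_ifs
  · exact Submodule.fg_bot
  · exact hL.fg _ _ _ hJ

theorem fgX (hL : F.AxL) (f1 : F.F1) (f2 : F.F2) (J : Finset I) (hJ : J.Nonempty) (M : ℕ) :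
    (F.X J M).FG :=
  (fgLt hL f2 J hJ M).of_le (f1.2.2.2.2.2.2.2.1 J M)

theorem Lt_lev (hL : F.AxL) (f1 : F.F1) (J : Finset I) (m : ℕ) : F.Lt J 1 ≤ F.Lt J (m + 1) := by
  intro z hz
  refine ⟨f1.1 J J 0 1 (m + 1) le_rfl (by omega) hz.1, fun i _ => ?_⟩
  have := hz.2 i (Set.mem_univ _)
  simp only [Nat.add_one_ne_zero, if_false, Nat.add_sub_cancel, one_ne_zero, Nat.sub_self]
    at this ⊢
  exact hL.lev J 0 0 m (Nat.zero_le _) this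

variable [Inhabited I]

theorem mn_eq {J : Finset I} (hJ : J.Nonempty) : mn J = J.min' hJ := dif_pos hJ

/-- The diagonal entries. -/
theorem exD (hD : TrD) (hL : F.AxL) (f1 : F.F1) (f2 : F.F2) (l1 : QLoc1 F) (l2 : QLoc2 F)
    {c : Finset I → ℕ → ℤ_[p]} (hc : F.TraceHyp c) (S : ℕ) :
    ∃ m₀, ∀ m ≥ m₀, ∀ S' C, 1 ≤ m → S + 2 * padicValNat p (m + 1).factorial ≤ S' →
      S' ≤ nu (m + 1) → Rep F (m + 1) C →
      ∃ G, ParD (p : ℤ_[p]) C G ∧ AppD F (m + 1) S' G ∧ ∀ k, 1 ≤ k →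
        (p : ℤ_[p]) ^ min S (2 * k) ∣ altSum (fun J => c J k) - sTr C G k := by
  classical
  obtain ⟨m₀, hm₀⟩ := hc S
  refine ⟨m₀, fun m hm S' C h1 hS hS' R => ?_⟩
  have hSS : S ≤ S' := by omega
  have key : ∀ J : Finset I, ∃ (Φ : F.Bl J 0 (m + 1) →ₗ[ℤ_[p]] F.Bl J 0 (m + 1))
      (ΦL : F.Lt J (m + 1) →ₗ[ℤ_[p]] F.Lt J (m + 1)), J.Nonempty →
      (F.Approx J (mn J) 0 (m + 1) S' 1 Φ ∧ (∀ b, (Φ b).1 ∈ F.Bl J 0 0 ⊔
        sm (p : ℤ_[p]) (F.Bl J 0 1) ⊔ sm ((p : ℤ_[p]) ^ 2) (F.Bl J 0 (m + 1))) ∧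
        ApproxL F J (mn J) (m + 1) S' ΦL ∧ ∀ k, 1 ≤ k → (p : ℤ_[p]) ^ min S (2 * k) ∣
          c J k - (LinearMap.trace ℤ_[p] _ (Φ ^ k) - LinearMap.trace ℤ_[p] _ (ΦL ^ k))) := by
    intro J
    by_cases hJ : J.Nonempty
    · rw [mn_eq hJ]
      obtain ⟨⟨Φ, a1, v1⟩, ⟨Φ', a2⟩, hx, ΦL, aL⟩ := l1 J (J.min' hJ) m S' (J.min'_mem hJ) h1 hS'
      choose Φx a3 using hx
      refine ⟨Φ, ΦL, fun _ => ⟨a1, v1, aL, fun k hk => ?_⟩⟩
      have t1 := hm₀ m hm J hJ Φ Φ' Φx (fun b => sm_anti _ hSS _ (a1 b))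
        (fun b => sm_anti _ hSS _ (a2 b)) (fun i b => sm_anti _ hSS _ (a3 i b)) k hk
      have t2 := l2 J (J.min' hJ) m S S' (J.min'_mem hJ) hS ΦL Φ' Φx aL a2 a3 k hk
      have := dvd_add t1 t2
      refine this.trans (dvd_of_eq ?_)
      ring
    · exact ⟨0, 0, fun h => absurd h hJ⟩
  choose Φ ΦL hk using key
  obtain ⟨-, -, hB⟩ := hD ℤ_[p] B I (fun J => F.Bl J 0 (m + 1))
    (fun J hJ => ff_of hL.tf _ (hL.fg _ _ _ hJ))
  obtain ⟨ΔB, eB, tB⟩ := hB Φ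
  obtain ⟨-, -, hLt⟩ := hD ℤ_[p] _ I (fun J => F.Lt J (m + 1))
    (fun J hJ => ff_of (tfY hL) _ (fgLt hL f2 J hJ _))
  obtain ⟨ΔL, eL, tL⟩ := hLt ΦL
  refine ⟨⟨ΔB, ΔL, 0, 0, 0, 0⟩, ⟨fun x => ?_, fun x => ?_, fun x => ?_, fun x => ?_⟩,
    ⟨fun b J => ?_, fun z J => ?_⟩, fun k hk1 => ?_⟩
  · refine coch_ext fun J _ => ?_
    show (C.sB (ΔB x)).1 J = (ΔB (C.sB x)).1 J
    rw [R.sB, eB, eB, ← Submodule.coe_smul, ← map_smul]
    congr 2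
    exact Subtype.ext (R.sB x J).symm
  · refine coch_ext fun J _ => ?_
    show (C.sL (ΔL x)).1 J = (ΔL (C.sL x)).1 J
    rw [R.sL, eL, eL, ← Submodule.coe_smul, ← map_smul]
    congr 2
    exact Subtype.ext (R.sL x J).symm
  · show ΔB x ∈ _
    have h3 : ∀ J, J.Nonempty → ∃ y0 ∈ F.Bl J 0 0, ∃ y1 ∈ F.Bl J 0 1, ∃ y2 ∈ F.Bl J 0 (m + 1),
        (ΔB x).1 J = y0 + (p : ℤ_[p]) • y1 + (p : ℤ_[p]) ^ 2 • y2 := by
      intro J hJ
      obtain ⟨u, hu, w, hw, e⟩ := Submodule.mem_sup.1 ((hk J hJ).2.1 ⟨x.1 J, x.2.2 J⟩)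
      obtain ⟨y0, h0, u1, hu1, rfl⟩ := Submodule.mem_sup.1 hu
      obtain ⟨y1, h1', rfl⟩ := mem_sm.1 hu1
      obtain ⟨y2, h2, rfl⟩ := mem_sm.1 hw
      exact ⟨y0, h0, y1, h1', y2, h2, by rw [eB, ← e]⟩
    obtain ⟨y0, h0, h4⟩ := coch_choose _ h3
    obtain ⟨y1, h1', h5⟩ := coch_choose _ h4
    obtain ⟨y2, h2, h6⟩ := coch_choose _ h5
    let z0 : F.CB (m + 1) := ⟨y0, coch_le (fun J => hL.lev J 0 0 _ (by omega)) h0⟩
    let z1 : F.CB (m + 1) := ⟨y1, coch_le (fun J => hL.lev J 0 1 _ (by omega)) h1'⟩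
    have e : ΔB x = z0 + (p : ℤ_[p]) • z1 + (p : ℤ_[p]) ^ 2 • (⟨y2, h2⟩ : F.CB (m + 1)) :=
      coch_ext fun J hJ => h6 J hJ
    rw [e]
    exact Submodule.add_mem_sup (Submodule.add_mem_sup ((R.B0 z0).2 h0)
      (mem_sm.2 ⟨z1, (R.B1 z1).2 h1', rfl⟩)) (mem_sm.2 ⟨_, trivial, rfl⟩)
  · show ΔL x ∈ _
    have h3 : ∀ J, J.Nonempty → ∃ y1 ∈ F.Lt J 1, ∃ y2 ∈ F.Lt J (m + 1),
        (ΔL x).1 J = (p : ℤ_[p]) • y1 + (p : ℤ_[p]) ^ 2 • y2 := by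
      intro J hJ
      obtain ⟨u, hu, w, hw, e⟩ := Submodule.mem_sup.1 ((hk J hJ).2.2.1.2 ⟨x.1 J, x.2.2 J⟩)
      obtain ⟨y1, h1', rfl⟩ := mem_sm.1 hu
      obtain ⟨y2, h2, rfl⟩ := mem_sm.1 hw
      exact ⟨y1, h1', y2, h2, by rw [eL, ← e]⟩
    obtain ⟨y1, h1', h5⟩ := coch_choose _ h3
    obtain ⟨y2, h2, h6⟩ := coch_choose _ h5
    let z1 : CLt F (m + 1) := ⟨y1, coch_le (fun J => Lt_lev hL f1 J m) h1'⟩
    have e : ΔL x = (p : ℤ_[p]) • z1 + (p : ℤ_[p]) ^ 2 • (⟨y2, h2⟩ : CLt F (m + 1)) :=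
      coch_ext fun J hJ => h6 J hJ
    rw [e]
    exact Submodule.add_mem_sup (mem_sm.2 ⟨z1, (R.L1 z1).2 h1', rfl⟩) (mem_sm.2 ⟨_, trivial, rfl⟩)
  · show (ΔB b).1 J - _ ∈ _
    rcases J.eq_empty_or_nonempty with rfl | hJ
    · rw [(ΔB b).2.1, b.2.1, map_zero, sub_zero]; exact Submodule.zero_mem _
    · have := (hk J hJ).1 ⟨b.1 J, b.2.2 J⟩
      rw [one_smul] at this
      rw [eB]; exact this
  · show (ΔL z).1 J - _ ∈ _
    rcases J.eq_empty_or_nonempty with rfl | hJ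
    · rw [(ΔL z).2.1, z.2.1, map_zero, sub_zero]; exact Submodule.zero_mem _
    · rw [eL]; exact (hk J hJ).2.2.1.1 ⟨z.1 J, z.2.2 J⟩
  · show _ ∣ _ - (LinearMap.trace ℤ_[p] _ (C.sB ∘ₗ ΔB ^ k) - LinearMap.trace ℤ_[p] _ (C.sL ∘ₗ ΔL ^ k))
    rw [tB C.sB R.sB k, tL C.sL R.sL k, altSum_sub, altSum_sub]
    exact dvd_altSum _ _ fun J hJ => (hk J hJ).2.2.2 k hk1

end Frame

theorem unit_of_dvd {p : ℕ} [Fact p.Prime] {a b : ℤ_[p]} (ha : IsUnit a)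
    (h : (p : ℤ_[p]) ∣ a - b) : IsUnit b := by
  by_contra hb
  have h1 : b ∈ IsLocalRing.maximalIdeal ℤ_[p] := hb
  have h2 : a - b ∈ IsLocalRing.maximalIdeal ℤ_[p] := by
    rw [PadicInt.maximalIdeal_eq_span_p, Ideal.mem_span_singleton]; exact h
  have h3 : a ∈ IsLocalRing.maximalIdeal ℤ_[p] := by
    simpa using Ideal.add_mem _ h2 h1
  exact h3 ha

theorem two_unit {p : ℕ} [hp : Fact p.Prime] (h : 3 ≤ p) : IsUnit (2 : ℤ_[p]) := by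
  by_contra hb
  have h1 : ‖((2 : ℤ) : ℤ_[p])‖ < 1 := by
    rw [PadicInt.isUnit_iff] at hb
    exact lt_of_le_of_ne (PadicInt.norm_le_one _) (by simpa using hb)
  rw [PadicInt.norm_int_lt_one_iff_dvd] at h1
  have h2 : p ∣ 2 := by exact_mod_cast h1
  have := Nat.le_of_dvd (by norm_num) h2
  omega

theorem fStmt_of (hAP : AbsP) (hH1 : AbsH1) (hD : TrD) (l1 : Loc1) (l2 : Loc2) (hC : ExC)
    (hCom : ComR) (hH : ExH) (hT : TransR) (f1 : RowF1) (f2 : RowF2) (f3a : RowF3a)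
    (f3b : RowF3b) : FStmt := by
  intro p _ hp A B Γ I ι σ _ _ _ _ _ _ _ _ _ _ _ _ _ F c hL hCx hTx hc
  rcases isEmpty_or_nonempty I with hI | hI
  · have h0 : ∀ a : Finset I → ℤ_[p], altSum a = 0 := by
      intro a
      refine Finset.sum_eq_zero fun J hJ => ?_
      obtain ⟨j, -⟩ := (Finset.mem_filter.1 hJ).2
      exact hI.elim j
    refine ⟨fun _ k _ => by rw [h0]; exact dvd_zero _, fun e 𝒳 _ _ _ _ _ hu => ?_⟩
    rw [h0] at hu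
    exact absurd hu not_isUnit_zero
  let _ : Inhabited I := Classical.inhabited_of_nonempty hI
  have g1 : F.F1 := f1 p A B Γ I ι σ F hL hCx hTx
  have g2 : F.F2 := f2 p A B Γ I ι σ F hL hCx hTx g1
  have g3 : F.F3a := f3a p A B Γ I ι σ F hL hCx hTx g1
  have g4 : F.F3b := f3b p A B Γ I ι σ F hL hCx hTx g1 g3
  have hp3 : 3 ≤ p := by omega
  have q1 : QLoc1 F := l1 p A B Γ I ι σ F hp3 hL hCx g1 g2 g3 g4
  have q2 : QLoc2 F := l2 p A B Γ I ι σ F hp3 hL hCx g1 g2 g3 g4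
  have qC : QExC F := hC p A B Γ I ι σ F hp3 hL hCx g1 g2 g3 g4
  have qCom : QCom F := hCom p A B Γ I ι σ F hp3 hL hCx g1 g2 g3 g4
  have qH : QExH F := hH p A B Γ I ι σ F hp3 hL hCx g1 g2 g3 g4
  have qT : QTrans F := hT p A B Γ I ι σ F hp3 hL hCx g1 g2 g3 g4
  -- the common setup
  have setup : ∀ S, 1 ≤ S → ∃ (M S' : ℕ) (C : Cx ℤ_[p] (F.CB M) (CLt F M) (CXm F M))
      (G : Fr ℤ_[p] (F.CB M) (CLt F M) (CXm F M)), 1 ≤ M ∧ S ≤ S' ∧ Rep F M C ∧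
      Str (p : ℤ_[p]) C ∧ ParD (p : ℤ_[p]) C G ∧ ParH (p : ℤ_[p]) C G ∧ AppD F M S' G ∧
      Com ((p : ℤ_[p]) ^ S) C G ∧ ∀ k, 1 ≤ k →
        (p : ℤ_[p]) ^ min S (2 * k) ∣ altSum (fun J => c J k) - sTr C G k := by
    intro S hS
    obtain ⟨m₀, hm₀⟩ := exD hD hL g1 g2 q1 q2 hc S
    let m := m₀ + 3 * S
    have hv := val_bound p hp S (m + 1) (by omega)
    obtain ⟨C, R, hS1⟩ := qC (m + 1) (by omega)
    obtain ⟨G1, pD, aD, tr⟩ := hm₀ m (by omega) (nu (m + 1)) C (by omega) hv le_rfl R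
    obtain ⟨G2, pH, aH⟩ := qH (m + 1) (nu (m + 1)) C (by omega) le_rfl R
    let G : Fr ℤ_[p] (F.CB (m + 1)) (CLt F (m + 1)) (CXm F (m + 1)) :=
      ⟨G1.ΦB, G1.ΦL, G2.ΦX, G2.H, G2.KL, G2.KB⟩
    have aD' : AppD F (m + 1) (nu (m + 1)) G := ⟨aD.aB, aD.aL⟩
    have aH' : AppH F (m + 1) (nu (m + 1)) G := ⟨aH.aX, aH.aH, aH.aKL, aH.aKB⟩
    exact ⟨m + 1, nu (m + 1), C, G, by omega, by omega, R, hS1, ⟨pD.sB, pD.sL, pD.vB, pD.vL⟩,
      ⟨pH.sX, pH.sH, pH.sKL, pH.sKB, pH.vX, pH.vH, pH.vKL, pH.vKB⟩, aD',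
      qCom (m + 1) S _ C G hv R aD' aH', tr⟩
  have ffB : ∀ M, Module.Finite ℤ_[p] (F.CB M) ∧ Module.Free ℤ_[p] (F.CB M) := fun M =>
    have h := hD ℤ_[p] B I (fun J => F.Bl J 0 M) (fun J hJ => ff_of hL.tf _ (hL.fg _ _ _ hJ))
    ⟨h.1, h.2.1⟩
  have ffL : ∀ M, Module.Finite ℤ_[p] (CLt F M) ∧ Module.Free ℤ_[p] (CLt F M) := fun M =>
    have h := hD ℤ_[p] _ I (fun J => F.Lt J M) (fun J hJ => ff_of (tfY hL) _ (fgLt hL g2 J hJ _))
    ⟨h.1, h.2.1⟩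
  have ffX : ∀ M, Module.Finite ℤ_[p] (CXm F M) ∧ Module.Free ℤ_[p] (CXm F M) := fun M =>
    have h := hD ℤ_[p] _ I (fun J => F.X J M)
      (fun J hJ => ff_of (tfY hL) _ (fgX hL g1 g2 J hJ _))
    ⟨h.1, h.2.1⟩
  refine ⟨fun h0 k hk => ?_, fun e 𝒳 h0 he ha hb hcc hu => ?_⟩
  · obtain ⟨M, S', C, G, hM, -, R, sC, pD, pH, -, cm, tr⟩ := setup k hk
    obtain ⟨i1, i2⟩ := ffB M
    obtain ⟨i3, i4⟩ := ffL M
    obtain ⟨i5, i6⟩ := ffX M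
    obtain ⟨e', he', h0'⟩ := (qT M C hM R).1 0 h0
    have : e' = 0 := Subtype.ext he'
    subst this
    have t1 := (hAP p hp3 _ _ _ C G k sC pD pH cm).1 h0' k hk
    have t2 := tr k hk
    rw [min_self] at t1
    rw [min_eq_left (by omega)] at t2
    simpa using dvd_add t2 t1
  · refine ⟨Module.finrank ℤ_[p] (F.CB 1) + Module.finrank ℤ_[p] F.CL + 1, fun S => ?_⟩
    obtain ⟨M, S', C, G, hM, hS', R, sC, pD, pH, aD, cm, tr⟩ := setup (max S 2) (by omega)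
    obtain ⟨i1, i2⟩ := ffB M
    obtain ⟨i3, i4⟩ := ffL M
    obtain ⟨i5, i6⟩ := ffX M
    obtain ⟨t0, ta, tb, tc, r1, r2⟩ := qT M C hM R
    obtain ⟨e', he', h0'⟩ := t0 e h0
    have cm2 : Com ((p : ℤ_[p]) ^ 2) C G :=
      ⟨fun x => sm_anti _ (le_max_right S 2) _ (cm.c1 x),
        fun x => sm_anti _ (le_max_right S 2) _ (cm.c2 x),
        fun x => sm_anti _ (le_max_right S 2) _ (cm.c3 x),
        fun x => sm_anti _ (le_max_right S 2) _ (cm.c4 x),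
        fun x => sm_anti _ (le_max_right S 2) _ (cm.c5 x)⟩
    have h1 : H1T (p : ℤ_[p]) C G := hH1 _ _ _ _ _ C G e' _ (two_unit hp3) sC pD pH cm2 h0'
      (show e'.1 ∈ 𝒳 by rw [he']; exact he) (ta ha) (tb 𝒳 hb)
      (tc 𝒳 S' G (by omega) aD hcc)
    have hu' : IsUnit (sTr C G 1) := by
      refine unit_of_dvd hu (Dvd.dvd.trans ?_ (tr 1 le_rfl))
      exact dvd_pow_self _ (by omega)
    obtain ⟨u, Λ, hΛ⟩ := (hAP p hp3 _ _ _ C G (max S 2) sC pD pH cm).2 e' h0' h1 hu'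
      (le_max_right _ _) (Module.finrank ℤ_[p] (F.CB 1) + Module.finrank ℤ_[p] F.CL + 1)
      (by omega) (by omega)
    refine ⟨u, Λ, fun k hk => ?_⟩
    have hk2 : k / (Module.finrank ℤ_[p] (F.CB 1) + Module.finrank ℤ_[p] F.CL + 1 + 1) ≤ k :=
      Nat.div_le_self _ _
    have t1 := (pow_dvd_pow (p : ℤ_[p]) (show min S (k + k / (Module.finrank ℤ_[p] (F.CB 1) +
      Module.finrank ℤ_[p] F.CL + 1 + 1)) ≤ _ by omega)).trans (hΛ k hk)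
    have t2 := (pow_dvd_pow (p : ℤ_[p]) (show min S (k + k / (Module.finrank ℤ_[p] (F.CB 1) +
      Module.finrank ℤ_[p] F.CL + 1 + 1)) ≤ min (max S 2) (2 * k) by omega)).trans (tr k hk)
    simpa using dvd_add t2 t1

end

end Pool.Agent.MP_ea150c_mp.H16
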