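import Pool.Agent.MP_ea150c_mp.H49.SpecG

/-! Pieces of the frame theorem `FStmt` (definitions and statements). -/

namespace Pool.Agent.MP_ea150c_mp.H16

open Pool.Agent.MP_ea150c_mp.H49

noncomputable section

section Abs

/-- A three term complex of complexes `TX → TL → TB` with signs and a filtration. -/
structure Cx (O TB TL TX : Type) [CommRing O] [AddCommGroup TB] [Module O TB]
    [AddCommGroup TL] [Module O TL] [AddCommGroup TX] [Module O TX] where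
  dB : TB →ₗ[O] TB
  dL : TL →ₗ[O] TL
  dX : TX →ₗ[O] TX
  sB : TB →ₗ[O] TB
  sL : TL →ₗ[O] TL
  sX : TX →ₗ[O] TX
  bd : TL →ₗ[O] TB
  inc : TX →ₗ[O] TL
  B0 : Submodule O TB
  B1 : Submodule O TB
  L1 : Submodule O TL

/-- The entries of a triangular operator on `TB × TL × TX`. -/
structure Fr (O TB TL TX : Type) [CommRing O] [AddCommGroup TB] [Module O TB]
    [AddCommGroup TL] [Module O TL] [AddCommGroup TX] [Module O TX] where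
  ΦB : TB →ₗ[O] TB
  ΦL : TL →ₗ[O] TL
  ΦX : TX →ₗ[O] TX
  H : TB →ₗ[O] TL
  KL : TL →ₗ[O] TX
  KB : TB →ₗ[O] TX

variable {O TB TL TX : Type} [CommRing O] [AddCommGroup TB] [Module O TB]
  [AddCommGroup TL] [Module O TL] [AddCommGroup TX] [Module O TX]
  (π : O) (C : Cx O TB TL TX) (G : Fr O TB TL TX)

/-- Structure of the complex. -/
structure Str : Prop where
  ssB : ∀ x, C.sB (C.sB x) = x
  ssL : ∀ x, C.sL (C.sL x) = x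
  ssX : ∀ x, C.sX (C.sX x) = x
  sdB : ∀ x, C.sB (C.dB x) = -C.dB (C.sB x)
  sdL : ∀ x, C.sL (C.dL x) = -C.dL (C.sL x)
  sdX : ∀ x, C.sX (C.dX x) = -C.dX (C.sX x)
  ddB : ∀ x, C.dB (C.dB x) = 0
  ddL : ∀ x, C.dL (C.dL x) = 0
  ddX : ∀ x, C.dX (C.dX x) = 0
  bdd : ∀ z, C.bd (C.dL z) = C.dB (C.bd z)
  bds : ∀ z, C.bd (C.sL z) = C.sB (C.bd z)
  incd : ∀ x, C.inc (C.dX x) = C.dL (C.inc x)
  incs : ∀ x, C.inc (C.sX x) = C.sL (C.inc x)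
  bdinc : ∀ x, C.bd (C.inc x) = 0
  le01 : C.B0 ≤ C.B1
  s0 : ∀ x ∈ C.B0, C.sB x ∈ C.B0
  s1 : ∀ x ∈ C.B1, C.sB x ∈ C.B1
  sL1 : ∀ x ∈ C.L1, C.sL x ∈ C.L1
  d0 : ∀ x ∈ C.B0, C.dB x ∈ C.B0
  d1 : ∀ x ∈ C.B1, C.dB x ∈ C.B1
  dL1 : ∀ x ∈ C.L1, C.dL x ∈ C.L1
  bd1 : ∀ z ∈ C.L1, C.bd z ∈ C.B1
  sat0 : ∀ x, π • x ∈ C.B0 → x ∈ C.B0
  sat1 : ∀ x, π • x ∈ C.B1 → x ∈ C.B1
  satL : ∀ x, π • x ∈ C.L1 → x ∈ C.L1
  tfL : ∀ x : TL, π • x = 0 → x = 0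
  tfX : ∀ x : TX, π • x = 0 → x = 0

/-- Parity and values of the first two diagonal entries. -/
structure ParD : Prop where
  sB : ∀ x, C.sB (G.ΦB x) = G.ΦB (C.sB x)
  sL : ∀ x, C.sL (G.ΦL x) = G.ΦL (C.sL x)
  vB : ∀ x, G.ΦB x ∈ C.B0 ⊔ sm π C.B1 ⊔ sm (π ^ 2) ⊤
  vL : ∀ x, G.ΦL x ∈ sm π C.L1 ⊔ sm (π ^ 2) ⊤

/-- Parity and values of the other entries. -/
structure ParH : Prop where
  sX : ∀ x, C.sX (G.ΦX x) = G.ΦX (C.sX x)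
  sH : ∀ x, C.sL (G.H x) = -G.H (C.sB x)
  sKL : ∀ x, C.sX (G.KL x) = -G.KL (C.sL x)
  sKB : ∀ x, C.sX (G.KB x) = G.KB (C.sB x)
  vX : ∀ x, G.ΦX x ∈ sm (π ^ 2) (⊤ : Submodule O TX)
  vH : ∀ x, G.H x ∈ sm π C.L1 ⊔ sm (π ^ 2) ⊤
  vKL : ∀ x, G.KL x ∈ sm (π ^ 2) (⊤ : Submodule O TX)
  vKB : ∀ x, G.KB x ∈ sm (π ^ 2) (⊤ : Submodule O TX)

/-- The operator commutes with the total differential modulo `π`, up to the last term. -/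
structure Com : Prop where
  c1 : ∀ b, C.dB (G.ΦB b) + C.sB (C.bd (G.H b)) - G.ΦB (C.dB b) ∈ sm π (⊤ : Submodule O TB)
  c2 : ∀ z, C.bd (G.ΦL z) - G.ΦB (C.bd z) ∈ sm π (⊤ : Submodule O TB)
  c3 : ∀ x, C.inc (G.ΦX x) - G.ΦL (C.inc x) ∈ sm π (⊤ : Submodule O TL)
  c4 : ∀ z, C.dL (G.ΦL z) + C.sL (C.inc (G.KL z)) - G.ΦL (C.dL z) - G.H (C.sB (C.bd z)) ∈
    sm π (⊤ : Submodule O TL)
  c5 : ∀ b, C.dL (G.H b) + C.sL (C.inc (G.KB b)) - G.H (C.dB b) ∈ sm π (⊤ : Submodule O TL)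

/-- Abstract form of `H0`. -/
def H0T (e : TB) : Prop :=
  e ∈ C.B0 ∧ C.sB e = e ∧ ∀ x ∈ C.B0, C.dB x ∈ sm π C.B0 →
    ∃ c : O, ∃ z ∈ C.B0, x - c • e - C.dB z ∈ sm π C.B0

/-- Abstract form of `H1a`. -/
def H1aT : Prop :=
  ∀ x ∈ C.L1, C.sL x = -x → C.dL x ∈ sm π C.L1 → ∃ z ∈ C.L1, x - C.dL z ∈ sm π C.L1

/-- Abstract form of `H1b`. -/
def H1bT (𝒳 : Submodule O TB) : Prop :=
  (∀ v ∈ 𝒳, v ∈ C.B1 ∧ C.sB v = v ∧ C.dB v = 0) ∧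
  ∀ w ∈ C.B1, C.sB w = w → C.dB w ∈ C.B0 ⊔ sm π C.B1 →
    ∃ v ∈ 𝒳, ∃ β ∈ C.B1, w - v - C.dB β ∈ C.B0 ⊔ sm π C.B1

/-- Abstract form of `H1c`. -/
def H1cT (𝒳 : Submodule O TB) : Prop :=
  ∀ x ∈ 𝒳, ∀ w ∈ C.B1, G.ΦB x - π • w ∈ C.B0 ⊔ sm (π ^ 2) ⊤ →
    ∀ ζ ∈ C.L1, ∀ β ∈ C.B1, ∀ v ∈ 𝒳, w - C.bd ζ - C.dB β - v ∈ C.B0 ⊔ sm π C.B1 →
      ∃ ζ' ∈ C.L1, C.sL ζ' = ζ' ∧ C.dL ζ' = 0 ∧ v - C.bd ζ' ∈ C.B0 ⊔ sm π C.B1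

/-- The level one hypothesis of `PStmt`, in components. -/
def H1T : Prop :=
  ∀ b ∈ C.B1, ∀ z ∈ C.L1, C.sB b = b → C.sL z = -z →
    C.dB b + C.sB (C.bd z) ∈ sm π C.B1 → C.dL z ∈ sm π C.L1 →
    ∃ β ∈ C.B1, ∃ ζ ∈ C.L1,
      G.ΦB b - π • (C.dB β + C.sB (C.bd ζ)) ∈ C.B0 ⊔ sm (π ^ 2) ⊤ ∧
      G.H b + G.ΦL z - π • C.dL ζ ∈ sm (π ^ 2) (⊤ : Submodule O TL)

/-- The supertrace of the `k`-th power on the first two terms. -/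
def sTr (k : ℕ) : O :=
  LinearMap.trace O TB (C.sB ∘ₗ G.ΦB ^ k) - LinearMap.trace O TL (C.sL ∘ₗ G.ΦL ^ k)

end Abs

/-- Row AbsH1: transfer of the level one hypotheses. -/
def AbsH1 : Prop :=
  ∀ (O TB TL TX : Type) [CommRing O] [AddCommGroup TB] [Module O TB]
    [AddCommGroup TL] [Module O TL] [AddCommGroup TX] [Module O TX]
    (π : O) (C : Cx O TB TL TX) (G : Fr O TB TL TX) (e : TB) (𝒳 : Submodule O TB),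
    IsUnit (2 : O) → Str π C → ParD π C G → ParH π C G → Com (π ^ 2) C G →
    H0T π C e → e ∈ 𝒳 → H1aT π C → H1bT π C 𝒳 → H1cT π C G 𝒳 → H1T π C G

/-- Row AbsP: the perturbation theorem for the total complex. -/
def AbsP : Prop :=
  ∀ (p : ℕ) [Fact p.Prime], 3 ≤ p → ∀ (TB TL TX : Type)
    [AddCommGroup TB] [Module ℤ_[p] TB] [Module.Finite ℤ_[p] TB] [Module.Free ℤ_[p] TB]
    [AddCommGroup TL] [Module ℤ_[p] TL] [Module.Finite ℤ_[p] TL] [Module.Free ℤ_[p] TL]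
    [AddCommGroup TX] [Module ℤ_[p] TX] [Module.Finite ℤ_[p] TX] [Module.Free ℤ_[p] TX]
    (C : Cx ℤ_[p] TB TL TX) (G : Fr ℤ_[p] TB TL TX) (S : ℕ),
    Str (p : ℤ_[p]) C → ParD (p : ℤ_[p]) C G → ParH (p : ℤ_[p]) C G →
    Com ((p : ℤ_[p]) ^ S) C G →
    ((H0T (p : ℤ_[p]) C 0 → ∀ k, 1 ≤ k → (p : ℤ_[p]) ^ min S k ∣ sTr C G k) ∧
     (∀ e, H0T (p : ℤ_[p]) C e → H1T (p : ℤ_[p]) C G → IsUnit (sTr C G 1) → 2 ≤ S →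
        ∀ d, 1 ≤ d → Module.finrank ℤ_[p] C.B1 + Module.finrank ℤ_[p] C.L1 ≤ d →
          ∃ (u : ℤ_[p]) (Λ : Matrix (Fin d) (Fin d) ℤ_[p]), ∀ k, 1 ≤ k →
            (p : ℤ_[p]) ^ min S (k + k / (d + 1)) ∣
              sTr C G k - (u ^ k - (p : ℤ_[p]) ^ k * Matrix.trace (Λ ^ k))))

/-- Row TrL: traces of an almost triangular operator. -/
def TrL : Prop :=
  ∀ (p : ℕ) [Fact p.Prime] (P L : Type)
    [AddCommGroup P] [Module ℤ_[p] P] [Module.Finite ℤ_[p] P] [Module.Free ℤ_[p] P]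
    [AddCommGroup L] [Module ℤ_[p] L] [Module.Finite ℤ_[p] L] [Module.Free ℤ_[p] L]
    (e : P →ₗ[ℤ_[p]] L) (a : P →ₗ[ℤ_[p]] P) (Φ : L →ₗ[ℤ_[p]] L) (S : ℕ),
    Function.Injective e → (∀ x, (p : ℤ_[p]) • x ∈ LinearMap.range e → x ∈ LinearMap.range e) →
    (∀ y, Φ (e y) - e (a y) ∈ sm ((p : ℤ_[p]) ^ S) (⊤ : Submodule ℤ_[p] L)) →
    (∀ x, Φ x ∈ LinearMap.range e ⊔ sm ((p : ℤ_[p]) ^ 2) ⊤) →
    ∀ k, 1 ≤ k → (p : ℤ_[p]) ^ min S (2 * k) ∣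
      LinearMap.trace ℤ_[p] L (Φ ^ k) - LinearMap.trace ℤ_[p] P (a ^ k)

/-- Row TrD: diagonal operators on cochains and their supertrace. -/
def TrD : Prop :=
  ∀ (O E I : Type) [CommRing O] [AddCommGroup E] [Module O E] [LinearOrder I] [Fintype I]
    (M : Finset I → Submodule O E),
    (∀ J, J.Nonempty → Module.Finite O (M J) ∧ Module.Free O (M J)) →
    Module.Finite O (Coch M) ∧ Module.Free O (Coch M) ∧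
    ∀ Φ : ∀ J, M J →ₗ[O] M J, ∃ Δ : Coch M →ₗ[O] Coch M,
      (∀ x J, (Δ x).1 J = (Φ J ⟨x.1 J, x.2.2 J⟩ : E)) ∧
      ∀ s : Coch M →ₗ[O] Coch M, (∀ x J, (s x).1 J = ((-1 : O) ^ (J.card + 1)) • x.1 J) →
        ∀ k : ℕ, LinearMap.trace O _ (s ∘ₗ Δ ^ k) =
          altSum fun J => LinearMap.trace O _ (Φ J ^ k)

/-- The least element, or a default. -/
def mn {I : Type} [LinearOrder I] [Inhabited I] (J : Finset I) : I :=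
  if h : J.Nonempty then J.min' h else default

/-- Remove the least element. -/
def tl {I : Type} [LinearOrder I] [Inhabited I] (J : Finset I) : Finset I := J.erase (mn J)

section Frame
variable {p : ℕ} [Fact p.Prime] {A B Γ I ι : Type} {σ : I → Type}
  [CommRing A] [Algebra ℤ_[p] A] [AddCommGroup B] [Module A B] [Module ℤ_[p] B]
  [IsScalarTower ℤ_[p] A B] [AddCommGroup Γ] [LinearOrder I] [Fintype I] [Fintype ι]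
  [DecidableEq ι] [∀ j, Fintype (σ j)] [∀ j, DecidableEq (σ j)] [Inhabited I]
  (F : FrameData p A B Γ I ι σ)

/-- Cochains with values in the middle term. -/
abbrev CLt (M : ℕ) : Submodule ℤ_[p] (Finset I → (A →ₗ[ℤ_[p]] B) × (ι → B)) :=
  Coch fun J => F.Lt J M

/-- Cochains with values in the last term. -/
abbrev CXm (M : ℕ) : Submodule ℤ_[p] (Finset I → (A →ₗ[ℤ_[p]] B) × (ι → B)) :=
  Coch fun J => F.X J M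

/-- `C` is the Cech complex of the frame in level `M`. -/
structure Rep (M : ℕ) (C : Cx ℤ_[p] (F.CB M) (CLt F M) (CXm F M)) : Prop where
  dB : ∀ x, (C.dB x).1 = dl ℤ_[p] _ x.1
  dL : ∀ x, (C.dL x).1 = dl ℤ_[p] _ x.1
  dX : ∀ x, (C.dX x).1 = dl ℤ_[p] _ x.1
  sB : ∀ x J, (C.sB x).1 J = ((-1 : ℤ_[p]) ^ (J.card + 1)) • x.1 J
  sL : ∀ x J, (C.sL x).1 J = ((-1 : ℤ_[p]) ^ (J.card + 1)) • x.1 J
  sX : ∀ x J, (C.sX x).1 J = ((-1 : ℤ_[p]) ^ (J.card + 1)) • x.1 J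
  bd : ∀ z J, (C.bd z).1 J = F.dLt (z.1 J)
  inc : ∀ x, (C.inc x).1 = x.1
  B0 : ∀ x, x ∈ C.B0 ↔ x.1 ∈ F.CB 0
  B1 : ∀ x, x ∈ C.B1 ↔ x.1 ∈ F.CB 1
  L1 : ∀ x, x ∈ C.L1 ↔ x.1 ∈ F.CL

/-- The first two diagonal entries approximate the exact operators. -/
structure AppD (M S' : ℕ) (G : Fr ℤ_[p] (F.CB M) (CLt F M) (CXm F M)) : Prop where
  aB : ∀ b J, (G.ΦB b).1 J - F.Ψ (mn J) (b.1 J) ∈ sm ((p : ℤ_[p]) ^ S') (F.Bh J 0)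
  aL : ∀ z J, (G.ΦL z).1 J - F.ΨLt (mn J) (z.1 J) ∈ F.WCt J S'

/-- The other entries approximate the exact operators. -/
structure AppH (M S' : ℕ) (G : Fr ℤ_[p] (F.CB M) (CLt F M) (CXm F M)) : Prop where
  aX : ∀ x J, (G.ΦX x).1 J - F.ΨLt (mn J) (x.1 J) ∈ F.WCt J S'
  aH : ∀ b J, (G.H b).1 J - ((-1 : ℤ_[p]) ^ (J.card + 1)) •
    ((F.Hop (mn J) (mn (tl J)) (b.1 (tl J)), 0) : (A →ₗ[ℤ_[p]] B) × (ι → B)) ∈ F.WCt J S'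
  aKL : ∀ z J, (G.KL z).1 J - ((-1 : ℤ_[p]) ^ (J.card + 1)) •
    (F.ΨLt (mn J) (z.1 (tl J)) - F.ΨLt (mn (tl J)) (z.1 (tl J)) -
      (F.Hop (mn J) (mn (tl J)) (F.dLt (z.1 (tl J))), 0)) ∈ F.WCt J S'
  aKB : ∀ b J, (G.KB b).1 J -
    ((F.Hop (mn J) (mn (tl J)) (b.1 (tl (tl J))) +
      F.Hop (mn (tl J)) (mn (tl (tl J))) (b.1 (tl (tl J))) -
      F.Hop (mn J) (mn (tl (tl J))) (b.1 (tl (tl J))), 0) : (A →ₗ[ℤ_[p]] B) × (ι → B)) ∈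
    F.WCt J S'

/-- `Φ` approximates `ΨLt j` on the middle term and has divisible values. -/
def ApproxL (J : Finset I) (j : I) (M S' : ℕ) (Φ : F.Lt J M →ₗ[ℤ_[p]] F.Lt J M) : Prop :=
  (∀ z, (Φ z).1 - F.ΨLt j z.1 ∈ F.WCt J S') ∧
  ∀ z, (Φ z).1 ∈ sm (p : ℤ_[p]) (F.Lt J 1) ⊔ sm ((p : ℤ_[p]) ^ 2) (F.Lt J M)

/-- Local approximations exist. -/
def QLoc1 : Prop := ∀ (J : Finset I) (j : I) (m S' : ℕ), j ∈ J → 1 ≤ m → S' ≤ nu (m + 1) →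
  (∃ Φ, F.Approx J j 0 (m + 1) S' 1 Φ ∧ ∀ b, (Φ b).1 ∈ F.Bl J 0 0 ⊔
    sm (p : ℤ_[p]) (F.Bl J 0 1) ⊔ sm ((p : ℤ_[p]) ^ 2) (F.Bl J 0 (m + 1))) ∧
  (∃ Φ', F.Approx J j 0 m S' 1 Φ') ∧
  (∀ i : σ j, ∃ Φx, F.Approx J j (F.wt j i) m S' (F.x j i ^ (p - 1)) Φx) ∧
  ∃ Φ, ApproxL F J j (m + 1) S' Φ

/-- The trace on the middle term. -/
def QLoc2 : Prop := ∀ (J : Finset I) (j : I) (m S S' : ℕ), j ∈ J →
  S + 2 * padicValNat p (m + 1).factorial ≤ S' →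
  ∀ (Φ : F.Lt J (m + 1) →ₗ[ℤ_[p]] F.Lt J (m + 1)) (Φ' : F.Bl J 0 m →ₗ[ℤ_[p]] F.Bl J 0 m)
    (Φx : ∀ i : σ j, F.Bl J (F.wt j i) m →ₗ[ℤ_[p]] F.Bl J (F.wt j i) m),
    ApproxL F J j (m + 1) S' Φ → F.Approx J j 0 m S' 1 Φ' →
    (∀ i, F.Approx J j (F.wt j i) m S' (F.x j i ^ (p - 1)) (Φx i)) →
    ∀ k, 1 ≤ k → (p : ℤ_[p]) ^ min S (2 * k) ∣ LinearMap.trace ℤ_[p] _ (Φ ^ k) -
      (p : ℤ_[p]) ^ k * (∑ i, LinearMap.trace ℤ_[p] _ (Φx i ^ k) +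
        (Fintype.card ι : ℤ_[p]) * LinearMap.trace ℤ_[p] _ (Φ' ^ k))

/-- The Cech complex of the frame exists. -/
def QExC : Prop := ∀ M, 1 ≤ M → ∃ C, Rep F M C ∧ Str (p : ℤ_[p]) C

/-- Approximations commute with the differential. -/
def QCom : Prop := ∀ M S S' C G, S + 2 * padicValNat p M.factorial ≤ S' → Rep F M C →
  AppD F M S' G → AppH F M S' G → Com ((p : ℤ_[p]) ^ S) C G

/-- The off diagonal entries exist. -/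
def QExH : Prop := ∀ M S' C, 1 ≤ M → S' ≤ nu M → Rep F M C →
  ∃ G, ParH (p : ℤ_[p]) C G ∧ AppH F M S' G

/-- Translation of the cohomological hypotheses. -/
def QTrans : Prop := ∀ M C, 1 ≤ M → Rep F M C →
  (∀ e, F.H0 e → ∃ e' : F.CB M, e'.1 = e ∧ H0T (p : ℤ_[p]) C e') ∧
  (F.H1a → H1aT (p : ℤ_[p]) C) ∧
  (∀ 𝒳, F.H1b 𝒳 → H1bT (p : ℤ_[p]) C (𝒳.comap (F.CB M).subtype)) ∧
  (∀ 𝒳 S' G, 2 ≤ S' → AppD F M S' G → F.H1c 𝒳 →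
    H1cT (p : ℤ_[p]) C G (𝒳.comap (F.CB M).subtype)) ∧
  Module.finrank ℤ_[p] C.B1 = Module.finrank ℤ_[p] (F.CB 1) ∧
  Module.finrank ℤ_[p] C.L1 = Module.finrank ℤ_[p] F.CL

end Frame

/-- A property of frames with the operator calculus. -/
def ForFr (Q : ∀ (p : ℕ) [Fact p.Prime] (A B Γ I ι : Type) (σ : I → Type)
    [CommRing A] [Algebra ℤ_[p] A] [AddCommGroup B] [Module A B] [Module ℤ_[p] B]
    [IsScalarTower ℤ_[p] A B] [AddCommGroup Γ] [LinearOrder I] [Fintype I] [Fintype ι]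
    [DecidableEq ι] [∀ j, Fintype (σ j)] [∀ j, DecidableEq (σ j)] [Inhabited I],
    FrameData p A B Γ I ι σ → Prop) : Prop :=
  ∀ (p : ℕ) [Fact p.Prime] (A B Γ I ι : Type) (σ : I → Type)
    [CommRing A] [Algebra ℤ_[p] A] [AddCommGroup B] [Module A B] [Module ℤ_[p] B]
    [IsScalarTower ℤ_[p] A B] [AddCommGroup Γ] [LinearOrder I] [Fintype I] [Fintype ι]
    [DecidableEq ι] [∀ j, Fintype (σ j)] [∀ j, DecidableEq (σ j)] [Inhabited I]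
    (F : FrameData p A B Γ I ι σ), 3 ≤ p → F.AxL → F.AxC → F.F1 → F.F2 → F.F3a → F.F3b →
    Q p A B Γ I ι σ F

/-- Row Loc1. -/
def Loc1 : Prop := ForFr fun _ _ _ _ _ _ _ _ _ _ _ _ _ _ _ _ _ _ _ _ _ _ F => QLoc1 F

/-- Row Loc2. -/
def Loc2 : Prop := ForFr fun _ _ _ _ _ _ _ _ _ _ _ _ _ _ _ _ _ _ _ _ _ _ F => QLoc2 F

/-- Row ExC. -/
def ExC : Prop := ForFr fun _ _ _ _ _ _ _ _ _ _ _ _ _ _ _ _ _ _ _ _ _ _ F => QExC F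

/-- Row ComR. -/
def ComR : Prop := ForFr fun _ _ _ _ _ _ _ _ _ _ _ _ _ _ _ _ _ _ _ _ _ _ F => QCom F

/-- Row ExH. -/
def ExH : Prop := ForFr fun _ _ _ _ _ _ _ _ _ _ _ _ _ _ _ _ _ _ _ _ _ _ F => QExH F

/-- Row Trans. -/
def TransR : Prop := ForFr fun _ _ _ _ _ _ _ _ _ _ _ _ _ _ _ _ _ _ _ _ _ _ F => QTrans F

end

end Pool.Agent.MP_ea150c_mp.H16
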