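import Pool.Agent.MP_ea150c_mp.H16.FAsm
import Pool.Agent.MP_ea150c_mp.H75.FAbsH1
import Pool.Agent.MP_ea150c_mp.H40.FAbsP
import Pool.Agent.MP_ea150c_mp.H28.FTrL
import Pool.Agent.MP_ea150c_mp.H26.FTrD
import Pool.Agent.MP_ea150c_mp.H78.FLoc1
import Pool.Agent.MP_ea150c_mp.H87.FLoc2
import Pool.Agent.MP_ea150c_mp.H1.FExC
import Pool.Agent.MP_ea150c_mp.H60.FComR
import Pool.Agent.MP_ea150c_mp.H96.FExH
import Pool.Agent.MP_ea150c_mp.H56.FTransR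

/-! The frame theorem. -/

namespace Pool.Agent.MP_ea150c_mp.H16

open Pool.Agent.MP_ea150c_mp.H49

theorem fStmt (hP : PStmt) (f1 : RowF1) (f2 : RowF2) (f3a : RowF3a) (f3b : RowF3b) (c1 : C1) :
    FStmt :=
  fStmt_of (H40.absP hP) H75.absH1 H26.trD H78.loc1 (H87.loc2 H28.trL) (H1.exC c1) H60.comR
    H96.exH H56.transR f1 f2 f3a f3b

end Pool.Agent.MP_ea150c_mp.H16
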