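import Pool.Agent.MP_ea150c_mp.H49.SpecK

/-! The trace formula modulo the square of the field size. -/

namespace Pool.Agent.MP_ea150c_mp.H16

open Finset Pool.Agent.MP_ea150c_mp.H49

section Paths
variable {R α : Type} [CommRing R]

theorem pow_path [Fintype α] [DecidableEq α] (M : Matrix α α R) (n : ℕ) : ∀ a b : α,
    (M ^ (n + 1)) a b = ∑ γ : Fin n → α, ∏ j : Fin (n + 1),
      M ((Fin.cons a γ : Fin (n + 1) → α) j) ((Fin.snoc γ b : Fin (n + 1) → α) j) := by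
  induction n with
  | zero => intro a b; simp [Fin.snoc]
  | succ n ih =>
    intro a b
    rw [pow_succ', Matrix.mul_apply, ← (Fin.consEquiv fun _ : Fin (n + 1) => α).sum_comp,
      Fintype.sum_prod_type]
    refine sum_congr rfl fun c _ => ?_
    rw [ih, mul_sum]
    refine sum_congr rfl fun γ _ => ?_
    rw [Fin.prod_univ_succ (n := n + 1),
      show (Fin.consEquiv fun _ : Fin (n + 1) => α) (c, γ) = Fin.cons c γ from rfl]
    simp only [← Fin.cons_snoc_eq_snoc_cons, Fin.cons_zero, Fin.cons_succ]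

theorem trace_path [Fintype α] [DecidableEq α] (M : Matrix α α R) (n : ℕ) :
    (M ^ (n + 1)).trace = ∑ γ : Fin (n + 1) → α, ∏ j, M (γ j) (γ (j + 1)) := by
  rw [Matrix.trace, ← (Fin.consEquiv fun _ : Fin (n + 1) => α).sum_comp, Fintype.sum_prod_type]
  refine sum_congr rfl fun a _ => ?_
  rw [Matrix.diag_apply, pow_path]
  refine sum_congr rfl fun γ _ => ?_
  simp only [Fin.consEquiv_apply, Fin.snoc_eq_cons_rotate, finRotate_apply]

theorem trace_sub (e : α → α → R) (N : Finset α) [DecidableEq N] (n : ℕ) :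
    ((Matrix.of fun a b : N => e a.1 b.1) ^ (n + 1)).trace =
      ∑ γ ∈ Fintype.piFinset fun _ : Fin (n + 1) => N, ∏ j, e (γ j) (γ (j + 1)) := by
  rw [trace_path]
  refine sum_bij (fun γ _ j => (γ j).1) (fun γ _ => Fintype.mem_piFinset.2 fun j => (γ j).2)
    (fun γ _ γ' _ h => funext fun j => Subtype.ext (congrFun h j)) (fun γ h => ?_) fun _ _ => rfl
  exact ⟨fun j => ⟨γ j, Fintype.mem_piFinset.1 h j⟩, mem_univ _, rfl⟩

theorem sum_cmp [DecidableEq α] (c : R) (w : α → R) (P P' : Finset α)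
    (h : ∀ γ, ¬ c ∣ w γ → (γ ∈ P ↔ γ ∈ P')) : c ∣ ∑ γ ∈ P, w γ - ∑ γ ∈ P', w γ := by
  rw [← sum_sdiff_sub_sum_sdiff]
  refine dvd_sub (dvd_sum fun γ hγ => ?_) (dvd_sum fun γ hγ => ?_)
  · by_contra k
    exact (mem_sdiff.1 hγ).2 ((h γ k).1 (mem_sdiff.1 hγ).1)
  · by_contra k
    exact (mem_sdiff.1 hγ).2 ((h γ k).2 (mem_sdiff.1 hγ).1)

theorem cyc_ind {n : ℕ} (Q : ℕ → Fin (n + 1) → Prop) (j : Fin (n + 1)) (h0 : Q 0 j)
    (hs : ∀ m i, Q m i → Q (m + 1) (i + 1)) : (∀ i : Fin (n + 1), Q i (j + i)) ∧ Q (n + 1) j := by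
  have h : ∀ i : Fin (n + 1), Q i (j + i) := by
    intro i
    induction i using Fin.induction with
    | zero => simpa using h0
    | succ i ih =>
      have := hs _ _ ih
      rwa [add_assoc, Fin.coeSucc_eq_succ] at this
  refine ⟨h, ?_⟩
  have := hs _ _ (h (Fin.last n))
  rwa [add_assoc, Fin.last_add_one, add_zero] at this

theorem cyc_pos {n : ℕ} (p : ℤ) (hp : 2 ≤ p) (u : Fin (n + 1) → ℤ)
    (h : ∀ j, u (j + 1) ≤ p * u j) (j : Fin (n + 1)) : 0 ≤ u j := by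
  obtain ⟨i, hi⟩ := Finite.exists_min u
  have h1 := h i
  have h2 := hi (i + 1)
  have h3 := hi j
  nlinarith

theorem one_sub_pow {ε : R} (h : ε ^ 2 = 0) (n : ℕ) : (1 - ε) ^ n = 1 - n * ε := by
  induction n with
  | zero => simp
  | succ n ih =>
    rw [pow_succ, ih]
    push_cast
    linear_combination (n : R) * h

theorem expand [Fintype α] [DecidableEq α] {ε : R} (h : ε ^ 2 = 0) (n : ℕ) (s : Finset α)
    (t : Finset α → R) :
    (-1) ^ Fintype.card α * ((1 - ε) ^ n * ∑ Z ∈ s.powerset,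
      ε ^ Z.card * (ε - 1) ^ (Fintype.card α - Z.card) * t Z) =
      t ∅ - ε * ((Fintype.card α * t ∅ + ∑ x ∈ s, t {x}) + n * t ∅) := by
  have e : ∀ m : ℕ, (ε - 1) ^ m = (-1) ^ m * (1 - m * ε) := fun m => by
    rw [← one_sub_pow h, ← mul_pow]
    congr 1
    ring
  have sq : ∀ m : ℕ, ((-1 : R) ^ m) * (-1) ^ m = 1 := fun m => by
    rw [← mul_pow]; simp
  rw [← sum_subset (s₁ := insert ∅ (s.image fun x => {x})), sum_insert (by simp),
    sum_image (fun x _ y _ h => singleton_injective h), one_sub_pow h]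
  · have h1 : (-1) ^ Fintype.card α * ∑ x ∈ s, ε ^ ({x} : Finset α).card *
        (ε - 1) ^ (Fintype.card α - ({x} : Finset α).card) * t {x} = -(ε * ∑ x ∈ s, t {x}) := by
      rw [mul_sum, mul_sum, ← sum_neg_distrib]
      refine sum_congr rfl fun x _ => ?_
      obtain ⟨m, hm⟩ : ∃ m, Fintype.card α = m + 1 :=
        ⟨_, (Nat.succ_pred_eq_of_pos (Fintype.card_pos_iff.2 ⟨x⟩)).symm⟩
      rw [card_singleton, hm, Nat.add_sub_cancel, e, pow_succ]
      linear_combination (-(ε * (1 - m * ε) * t {x})) * sq m + (m * t {x}) * h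
    rw [card_empty, Nat.sub_zero, e]
    linear_combination (1 - n * ε) * h1 +
      ((1 - n * ε) * (1 - Fintype.card α * ε) * t ∅) * sq (Fintype.card α) +
      (n * Fintype.card α * t ∅ + n * ∑ x ∈ s, t {x}) * h
  · intro Z hZ
    simp only [mem_insert, mem_image] at hZ
    rcases hZ with rfl | ⟨x, hx, rfl⟩
    · simp
    · simpa using hx
  · intro Z hZ hn
    simp only [mem_insert, mem_image, not_or, not_exists, not_and] at hn
    obtain ⟨m, hm⟩ : ∃ m, Z.card = m + 2 := by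
      have h0 : Z.card ≠ 0 := fun k => hn.1 (card_eq_zero.1 k)
      have h1 : Z.card ≠ 1 := fun k => by
        obtain ⟨x, rfl⟩ := card_eq_one.1 k
        exact hn.2 x (by simpa using hZ) rfl
      exact ⟨Z.card - 2, by omega⟩
    rw [hm, pow_add, h, mul_zero, zero_mul, zero_mul]

end Paths

theorem core_fin {σ ι : Type} [Fintype σ] [Fintype ι] (tor : σ → Prop) (D M : ℕ) :
    ∃ C : Finset σ → Finset ((σ → ℤ) × (ι → ℕ)), ∀ Z a, a ∈ C Z ↔ Core tor D M Z a := by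
  classical
  refine ⟨fun Z => ((Fintype.piFinset fun _ => Icc (0 : ℤ) (D * (M + Fintype.card ι))) ×ˢ
    (Fintype.piFinset fun _ => range (M + 1))).filter (Core tor D M Z), fun Z a => ?_⟩
  rw [mem_filter, and_iff_right_iff_imp]
  rintro ⟨h1, -, -, h4, h5⟩
  simp only [mem_product, Fintype.mem_piFinset, mem_Icc, mem_range]
  refine ⟨fun x => ⟨h1 x, ?_⟩, fun i => ?_⟩
  · refine (single_le_sum (fun x _ => h1 x) (mem_univ x)).trans (h4.trans ?_)
    refine mul_le_mul_of_nonneg_left ?_ (Int.natCast_nonneg D)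
    rw [sum_add_distrib, sum_const, card_univ, nsmul_eq_mul, mul_one]
    have : ((∑ i, a.2 i : ℕ) : ℤ) ≤ M := by exact_mod_cast h5
    push_cast at this
    linarith
  · exact Nat.lt_succ_of_le ((single_le_sum (fun i _ => Nat.zero_le (a.2 i)) (mem_univ i)).trans h5)

theorem good_path (hr : KRow) (hs : KSupp) (p : ℕ) [Fact p.Prime] (hp : 7 ≤ p) (S M : ℕ)
    (hM : 2 * S ≤ M) {σ ι Γ : Type} [Fintype σ] [DecidableEq σ] [Fintype ι] [DecidableEq ι]
    [AddCommGroup Γ] (hΓ : ∀ (n : ℕ) (g : Γ), n ≠ 0 → n • g = 0 → g = 0) (wt : σ → Γ) (om : ι → Γ)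
    (fp : ι → MvPolynomial σ ℤ) (D : ℕ) (hD : ∀ i, (fp i).totalDegree ≤ D)
    (hw : ∀ i, ∀ m ∈ (fp i).support, ∑ x, (m x : ℤ) • wt x = om i) {n : ℕ}
    (γ : Fin (n + 1) → (σ → ℤ) × (ι → ℕ))
    (h : ¬ (p : ℤ_[p]) ^ S ∣ ∏ j, ent p fp (γ j) (γ (j + 1))) (j : Fin (n + 1)) :
    (∀ x, 0 ≤ (γ j).1 x) ∧ (∀ x i, (γ j).1 x = 0 → (γ i).1 x = 0) ∧
      ∑ x, (γ j).1 x ≤ D * ∑ i, (((γ j).2 i : ℤ) + 1) ∧ ∑ i, (γ j).2 i ≤ M ∧
      ∑ x, (γ j).1 x • wt x = ∑ i, ((γ j).2 i + 1) • om i := by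
  have hp' : (2 : ℤ) ≤ p := by omega
  have k := fun j => hs p hp σ ι Γ wt om fp D hD hw (γ j) (γ (j + 1)) fun e =>
    h (by rw [prod_eq_zero (mem_univ j) e]; exact dvd_zero _)
  have h1 : ∀ j x, 0 ≤ (γ j).1 x := fun j x =>
    cyc_pos p hp' (fun j => (γ j).1 x) (fun j => (k j).1 x) j
  refine ⟨h1 j, fun x i hx => ?_, ?_, ?_, ?_⟩
  · have := (cyc_ind (fun _ i => (γ i).1 x = 0) j hx fun _ i hi => by
      have h2 := (k i).1 x
      rw [hi, mul_zero] at h2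
      exact le_antisymm h2 (h1 _ x)).1 (i - j)
    rwa [add_sub_cancel] at this
  · have := cyc_pos p hp' (fun j => D * ∑ i, (((γ j).2 i : ℤ) + 1) - ∑ x, (γ j).1 x)
      (fun j => by have := (k j).2.1; linarith) j
    linarith
  · by_contra hl
    refine h (((pow_dvd_pow _ ?_).trans (hr p hp σ ι fp (γ j) (γ (j + 1)))).trans
      (dvd_prod_of_mem (fun j => ent p fp (γ j) (γ (j + 1))) (mem_univ j)))
    unfold nu
    omega
  · obtain ⟨W, hW⟩ : ∃ W : Fin (n + 1) → Γ,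
      ∀ j, W j = ∑ x, (γ j).1 x • wt x - ∑ i, ((γ j).2 i + 1) • om i := ⟨_, fun _ => rfl⟩
    have h2 := (cyc_ind (fun m i => W i = p ^ m • W j) j (by simp) fun m i hi => by
      rw [pow_succ', mul_smul, ← hi, hW, hW, (k i).2.2]).2
    have h3 : 1 < p ^ (n + 1) := Nat.one_lt_pow n.succ_ne_zero (by omega)
    refine sub_eq_zero.1 ((hW j).symm.trans (hΓ (p ^ (n + 1) - 1) _ (by omega) ?_))
    rw [sub_nsmul _ h3.le, ← h2, one_nsmul, add_neg_cancel]

theorem k5 (h4 : K4) (hr : KRow) (hs : KSupp) : K5 := by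
  intro p _ hp S
  obtain ⟨M₁, h4⟩ := h4 p hp S
  refine ⟨max M₁ (2 * S), fun σ ι Γ _ _ _ _ _ hΓ tor wt om fp hw N N' Nx hN hN' hNx k hk F _ _ hF =>
    ?_⟩
  classical
  obtain ⟨M, hM⟩ : ∃ M, M = max M₁ (2 * S) := ⟨_, rfl⟩
  rw [← hM] at hN hN' hNx
  obtain ⟨D, hD⟩ : ∃ D, ∀ i, (fp i).totalDegree ≤ D :=
    ⟨univ.sup fun i => (fp i).totalDegree, fun i =>
      le_sup (f := fun i => (fp i).totalDegree) (mem_univ i)⟩
  obtain ⟨C, hC⟩ := core_fin (ι := ι) tor D M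
  have h5 := h4 M (by omega) σ ι tor fp D hD C hC k hk F hF
  obtain ⟨n, rfl⟩ : ∃ n, k = n + 1 := ⟨k - 1, by omega⟩
  have gp := fun (γ : Fin (n + 1) → (σ → ℤ) × (ι → ℕ)) =>
    good_path hr hs p hp S M (by omega) hΓ wt om fp D hD hw γ
  have tk : ∀ N : Finset ((σ → ℤ) × (ι → ℕ)), trk p fp N (n + 1) =
      ∑ γ ∈ Fintype.piFinset fun _ : Fin (n + 1) => N, ∏ j, ent p fp (γ j) (γ (j + 1)) := by
    intro N
    unfold trk
    rw [trace_sub]
  have mA : ∀ z N, Adm tor wt om M z N → ∀ γ : Fin (n + 1) → (σ → ℤ) × (ι → ℕ),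
      ¬ (p : ℤ_[p]) ^ S ∣ ∏ j, ent p fp (γ j) (γ (j + 1)) →
      (γ ∈ Fintype.piFinset (fun _ : Fin (n + 1) => N) ↔
        ∀ j x, ¬ tor x → z ≠ some x → 1 ≤ (γ j).1 x) := by
    intro z N hN γ hγ
    rw [Fintype.mem_piFinset]
    exact forall_congr' fun j => ⟨fun h x h1 h2 => (hN.1 _ h x h1).2 h2,
      fun h => hN.2 _ (gp γ hγ j).1 h (gp γ hγ j).2.2.2.2 (gp γ hγ j).2.2.2.1⟩
  have mC : ∀ Z (γ : Fin (n + 1) → (σ → ℤ) × (ι → ℕ)),
      ¬ (p : ℤ_[p]) ^ S ∣ ∏ j, ent p fp (γ j) (γ (j + 1)) →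
      (γ ∈ Fintype.piFinset (fun _ : Fin (n + 1) => C Z) ↔
        ∀ j, (∀ x ∈ Z, (γ j).1 x = 0) ∧ ∀ x, ¬ tor x → x ∉ Z → 1 ≤ (γ j).1 x) := by
    intro Z γ hγ
    rw [Fintype.mem_piFinset]
    refine forall_congr' fun j => ?_
    rw [hC]
    exact ⟨fun h => ⟨h.2.1, h.2.2.1⟩,
      fun h => ⟨(gp γ hγ j).1, h.1, h.2, (gp γ hγ j).2.2.1, (gp γ hγ j).2.2.2.1⟩⟩
  have c0 : ∀ z N, (∀ x, ¬ tor x → z ≠ some x) → Adm tor wt om M z N →
      (p : ℤ_[p]) ^ S ∣ trk p fp N (n + 1) - trk p fp (C ∅) (n + 1) := by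
    intro z N hz hN
    rw [tk, tk]
    refine sum_cmp _ _ _ _ fun γ hγ => ?_
    rw [mA z N hN γ hγ, mC ∅ γ hγ]
    exact forall_congr' fun j => ⟨fun h => ⟨by simp, fun x hx _ => h x hx (hz x hx)⟩,
      fun h x hx _ => h.2 x hx (by simp)⟩
  have c1 : ∀ x, ¬ tor x → (p : ℤ_[p]) ^ S ∣ trk p fp (Nx x) (n + 1) -
      (trk p fp (C ∅) (n + 1) + trk p fp (C {x}) (n + 1)) := by
    intro x hx
    rw [tk, tk, tk, ← sum_union]
    · refine sum_cmp _ _ _ _ fun γ hγ => ?_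
      rw [mem_union, mA _ _ (hNx x) γ hγ, mC ∅ γ hγ, mC {x} γ hγ]
      constructor
      · intro h
        by_cases h0 : (γ 0).1 x = 0
        · refine Or.inr fun j => ⟨fun y hy => ?_, fun y h1 h2 => h j y h1 ?_⟩
          · rw [mem_singleton.1 hy]
            exact (gp γ hγ 0).2.1 x j h0
          · rintro ⟨⟩
            exact h2 (mem_singleton_self _)
        · refine Or.inl fun j => ⟨by simp, fun y h1 _ => ?_⟩
          by_cases e : x = y
          · subst e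
            have h2 := (gp γ hγ j).1 x
            have h3 : (γ j).1 x ≠ 0 := fun k => h0 ((gp γ hγ j).2.1 x 0 k)
            omega
          · exact h j y h1 (by simpa using e)
      · rintro (h | h) j y h1 h2
        · exact (h j).2 y h1 (by simp)
        · exact (h j).2 y h1 fun k => h2 (by rw [mem_singleton.1 k])
    · refine disjoint_left.2 fun γ h1 h2 => ?_
      have h3 := ((hC _ _).1 (Fintype.mem_piFinset.1 h1 0)).2.2.1 x hx (by simp)
      have h4 := ((hC _ _).1 (Fintype.mem_piFinset.1 h2 0)).2.1 x (by simp)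
      omega
  have c2 : (p : ℤ_[p]) ^ S ∣ ∑ x, trk p fp (Nx x) (n + 1) -
      (Fintype.card σ * trk p fp (C ∅) (n + 1) +
        ∑ x ∈ univ.filter fun x => ¬ tor x, trk p fp (C {x}) (n + 1)) := by
    rw [sum_filter, ← card_univ, ← nsmul_eq_mul, ← sum_const, ← sum_add_distrib,
      ← sum_sub_distrib]
    refine dvd_sum fun x _ => ?_
    split_ifs with hx
    · rw [add_zero]
      exact c0 _ _ (fun y hy e => hy (Option.some.inj e ▸ hx)) (hNx x)
    · exact c1 x hx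
  let π := Ideal.Quotient.mk (Ideal.span {(p : ℤ_[p]) ^ min S (2 * (n + 1))})
  have hπ : ∀ a b : ℤ_[p], (p : ℤ_[p]) ^ S ∣ a - b → π a = π b := fun a b h =>
    Ideal.Quotient.eq.2 (Ideal.mem_span_singleton.2 ((pow_dvd_pow _ (min_le_left _ _)).trans h))
  have hε : π ((p : ℤ_[p]) ^ (n + 1)) ^ 2 = 0 := by
    rw [← map_pow, ← pow_mul, Ideal.Quotient.eq_zero_iff_mem, Ideal.mem_span_singleton]
    exact pow_dvd_pow _ (by omega)
  rw [← Ideal.mem_span_singleton, ← Ideal.Quotient.eq]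
  change π _ = π _
  have e1 := hπ _ _ h5
  have e2 := hπ _ _ (c0 none N (fun _ _ => by simp) hN)
  have e3 := hπ _ _ (c0 none N' (fun _ _ => by simp) hN')
  have e4 := hπ _ _ c2
  have e5 := expand hε (Fintype.card ι) (univ.filter fun x => ¬ tor x)
    fun Z => π (trk p fp (C Z) (n + 1))
  rw [mul_assoc, map_mul, e1, map_sub, map_mul π (_ ^ (n + 1)), map_add,
    map_mul π (Fintype.card ι : ℤ_[p]), e2, e3, e4]
  generalize (p : ℤ_[p]) ^ (n + 1) = q at e5 ⊢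
  simp only [map_mul, map_pow, map_sub, map_add, map_sum, map_one, map_neg, map_natCast]
  exact e5

end Pool.Agent.MP_ea150c_mp.H16
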