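import Pool.Agent.MP_ea150c_mp.H20.SpecT

/-! Inclusion and exclusion on the cones over the quadrics. -/

namespace Pool.Agent.MP_ea150c_mp.H16

open Finset Pool.Agent.MP_ea150c_mp.H20 Pool.Agent.MP_ea150c_mp.H49

/-- Points upstairs as triples. -/
abbrev Tp3 (I F : Type) : Type := (I → Fin 4 → F) × (I → F) × (I → F)

variable {I E F : Type} [Field F]

/-- The quadric of a vertex. -/
def Qv (w : Tp3 I F) (v : I) : F := w.2.1 v * w.2.2 v + w.1 v 0 * w.1 v 3 + w.1 v 1 * w.1 v 2

/-- The form of an edge. -/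
def Ed (w : Tp3 I F) : Option I → Option I → F
  | some u, some v => w.2.1 u * w.2.2 v + w.2.2 u * w.2.1 v +
      (w.1 u 0 * w.1 v 3 + w.1 u 3 * w.1 v 0 + w.1 u 1 * w.1 v 2 + w.1 u 2 * w.1 v 1)
  | none, some v => w.2.2 v
  | some u, none => w.2.2 u
  | none, none => 1

/-- The conditions that do not depend on the model. -/
def Base (G : PG I E) (w : Tp3 I F) : Prop :=
  (∀ e, Ed w (G.src e) (G.tgt e) ≠ 0) ∧ ∀ v ∈ G.N0, w.2.1 v ≠ 0

/-- The triple attached to a position and scalars. -/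
def up3 (a : I → F) (x : I → Fin 4 → F) : Tp3 I F :=
  (fun v t => a v * x v t, a, fun v => -(a v * (x v 0 * x v 3 + x v 1 * x v 2)))

theorem ed_up3 (a : I → F) (ha : ∀ v, a v ≠ 0) (x : I → Fin 4 → F) (o o' : Option I)
    (h : o ≠ o') : Ed (up3 a x) o o' ≠ 0 ↔
      (o.elim 0 x - o'.elim 0 x) 0 * (o.elim 0 x - o'.elim 0 x) 3 +
        (o.elim 0 x - o'.elim 0 x) 1 * (o.elim 0 x - o'.elim 0 x) 2 ≠ 0 := by
  have key : ∀ c y z : F, c ≠ 0 → y = c * z → (y ≠ 0 ↔ z ≠ 0) := by
    rintro c _ z hc rfl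
    exact mul_ne_zero_iff_left hc
  rcases o with _ | u <;> rcases o' with _ | v
  · exact absurd rfl h
  · refine key (-a v) _ _ (neg_ne_zero.2 (ha v)) ?_
    simp only [Ed, up3, Option.elim, Pi.sub_apply, Pi.zero_apply]
    ring
  · refine key (-a u) _ _ (neg_ne_zero.2 (ha u)) ?_
    simp only [Ed, up3, Option.elim, Pi.sub_apply, Pi.zero_apply]
    ring
  · refine key (-(a u * a v)) _ _ (neg_ne_zero.2 (mul_ne_zero (ha u) (ha v))) ?_
    simp only [Ed, up3, Option.elim, Pi.sub_apply]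
    ring

open Classical in
/-- The indicator of a statement. -/
noncomputable def ind (P : Prop) : ℤ := if P then 1 else 0

theorem ind_mul (P Q : Prop) : ind P * ind Q = ind (P ∧ Q) := by
  by_cases h : P <;> by_cases k : Q <;> simp [ind, h, k]

theorem sum_ind {α : Type} [Fintype α] (P : α → Prop) [DecidablePred P] :
    ∑ w, ind (P w) = ((univ.filter P).card : ℤ) := by
  rw [← sum_boole]
  refine sum_congr rfl fun w _ => ?_
  by_cases h : P w <;> simp [ind, h]

theorem prod_ind (s : Finset I) (P : I → Prop) : ∏ v ∈ s, ind (P v) = ind (∀ v ∈ s, P v) := by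
  by_cases h : ∀ v ∈ s, P v
  · rw [show ind (∀ v ∈ s, P v) = 1 from if_pos h]
    exact prod_eq_one fun v hv => if_pos (h v hv)
  · rw [show ind (∀ v ∈ s, P v) = 0 from if_neg h]
    push Not at h
    obtain ⟨v, hv, k⟩ := h
    exact prod_eq_zero hv (if_neg k)

theorem ie (s : Finset I) (P : I → Prop) :
    ind (∀ v ∈ s, ¬ P v) = ∑ R ∈ s.powerset, (-1 : ℤ) ^ R.card * ind (∀ v ∈ R, P v) := by
  classical
  rw [← prod_ind]
  have : ∀ v ∈ s, ind (¬ P v) = 1 + -ind (P v) := fun v _ => by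
    by_cases h : P v <;> simp [ind, h]
  rw [prod_congr rfl this, prod_one_add]
  refine sum_congr rfl fun R _ => ?_
  rw [prod_neg, prod_ind]

variable [DecidableEq I] [Fintype I] [Fintype E] [DecidableEq E] [Fintype F]

/-- From a point of the model to a triple. -/
def toT (R : Finset I) (x : Var I (Ex R) → F) : Tp3 I F :=
  (fun v t => x (Sum.inl (v, t)), fun v => if h : v ∉ R then x (Sum.inr (Sum.inl ⟨v, h⟩)) else 0,
    fun v => x (Sum.inr (Sum.inr v)))

/-- From a triple to a point of the model. -/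
def ofT (R : Finset I) (w : Tp3 I F) : Var I (Ex R) → F :=
  Sum.elim (fun z => w.1 z.1 z.2) (Sum.elim (fun v => w.2.1 v.1) w.2.2)

omit [Fintype I] [Fintype F] in
theorem ev_al (R : Finset I) (x : Var I (Ex R) → F) (v : I) :
    MvPolynomial.eval₂ (Int.castRingHom F) x (alP R v) = (toT R x).2.1 v := by
  unfold alP toT
  split_ifs with h <;> simp [h]

omit [Fintype I] [Fintype E] [DecidableEq E] [Fintype F] in
theorem ev_iff (G : PG I E) (R S : Finset I) (x : Var I (Ex R) → F) :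
    (∀ i, MvPolynomial.eval₂ (Int.castRingHom F) x ((G.model R S).f i) ≠ 0) ↔
      (∀ v ∈ S, Qv (toT R x) v ≠ 0) ∧ Base G (toT R x) := by
  have h1 : ∀ v, MvPolynomial.eval₂ (Int.castRingHom F) x (qP R v) = Qv (toT R x) v := fun v => by
    simp only [qP, beP, MvPolynomial.eval₂_add, MvPolynomial.eval₂_mul, MvPolynomial.eval₂_X, ev_al]
    rfl
  have h2 : ∀ o o', MvPolynomial.eval₂ (Int.castRingHom F) x (edgeP R o o') =
      Ed (toT R x) o o' := by
    rintro (_ | u) (_ | v) <;>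
      simp only [edgeP, beP, xxP, MvPolynomial.eval₂_add, MvPolynomial.eval₂_mul,
        MvPolynomial.eval₂_X, MvPolynomial.eval₂_one, ev_al] <;> rfl
  simp only [PG.model, Sum.forall, Sum.elim_inl, Sum.elim_inr, h1, h2, ev_al, Subtype.forall, Base]

omit [Fintype E] [DecidableEq E] in
theorem cnt_eq (G : PG I E) (R S : Finset I) :
    (cntAll (G.model R S) F (fun _ => True) : ℤ) = ∑ w : Tp3 I F,
      ind (∀ v ∈ R, w.2.1 v = 0) * ind (∀ v ∈ S, Qv w v ≠ 0) * ind (Base G w) := by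
  classical
  simp only [ind_mul]
  rw [sum_ind]
  unfold cntAll
  rw [Nat.card_eq_fintype_card, Fintype.card_subtype]
  congr 1
  have k : ∀ w : Tp3 I F, (∀ v ∈ R, w.2.1 v = 0) → toT R (ofT R w) = w := by
    intro w h
    refine Prod.ext rfl (Prod.ext (funext fun v => ?_) rfl)
    simp only [toT, ofT, Sum.elim_inr, Sum.elim_inl]
    split_ifs with hv
    · exact (h v hv).symm
    · rfl
  refine card_nbij' (toT R) (ofT R) (fun x hx => ?_) (fun w hw => ?_) (fun x _ => ?_)
    fun w hw => ?_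
  · simp only [coe_filter, mem_univ, true_and, Set.mem_ofPred_eq, ev_iff] at hx ⊢
    exact ⟨⟨fun v hv => by simp [toT, hv], hx.1⟩, hx.2⟩
  · simp only [coe_filter, mem_univ, true_and, Set.mem_ofPred_eq, ev_iff] at hw ⊢
    rw [k w hw.1.1]
    exact ⟨hw.1.2, hw.2⟩
  · funext z
    rcases z with z | v | v
    · rfl
    · simp [toT, ofT, v.2]
    · rfl
  · simp only [coe_filter, mem_univ, true_and, Set.mem_ofPred_eq] at hw
    exact k w hw.1.1

omit [DecidableEq E] in
theorem pos_eq (G : PG I E) (hG : ∀ e, G.src e ≠ G.tgt e) :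
    ((Fintype.card F : ℤ) - 1) ^ Fintype.card I * G.N4pos F = ∑ w : Tp3 I F,
      ind (∀ v ∈ G.N0ᶜ, ¬ w.2.1 v = 0) * ind (∀ v ∈ (univ : Finset I), ¬ Qv w v ≠ 0) *
        ind (Base G w) := by
  classical
  simp only [ind_mul]
  rw [sum_ind]
  have h1 : ((Fintype.card F : ℤ) - 1) ^ Fintype.card I =
      ((Fintype.piFinset fun _ : I => (univ : Finset F).erase 0).card : ℤ) := by
    rw [Fintype.card_piFinset, prod_const, card_erase_of_mem (mem_univ _), card_univ, card_univ,
      Nat.cast_pow, Nat.cast_sub Fintype.card_pos, Nat.cast_one]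
  unfold PG.N4pos
  rw [h1, ← Nat.cast_mul, ← card_product]
  congr 1
  have k : ∀ w : Tp3 I F, (∀ v, w.2.1 v ≠ 0) → (∀ v, Qv w v = 0) →
      up3 w.2.1 (fun v t => (w.2.1 v)⁻¹ * w.1 v t) = w := by
    intro w h1 h2
    refine Prod.ext (funext fun v => funext fun t => mul_inv_cancel_left₀ (h1 v) _)
      (Prod.ext rfl (funext fun v => ?_))
    have h3 := h1 v
    have h4 := h2 v
    simp only [up3, Qv] at h4 ⊢
    field_simp
    linear_combination -h4
  have k' : ∀ w : Tp3 I F, (∀ v ∈ G.N0ᶜ, ¬ w.2.1 v = 0) → Base G w → ∀ v, w.2.1 v ≠ 0 := by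
    intro w h1 h2 v
    by_cases hv : v ∈ G.N0
    · exact h2.2 v hv
    · exact h1 v (mem_compl.2 hv)
  refine card_nbij' (fun z => up3 z.1 z.2) (fun w => (w.2.1, fun v t => (w.2.1 v)⁻¹ * w.1 v t))
    (fun z hz => ?_) (fun w hw => ?_) (fun z hz => ?_) fun w hw => ?_
  · simp only [mem_coe, mem_product, Fintype.mem_piFinset, mem_erase, mem_univ, and_true,
      mem_filter, true_and, forall_true_left, not_not] at hz ⊢
    refine ⟨⟨fun v _ => hz.1 v, fun v => ?_⟩,
      fun e => (ed_up3 _ hz.1 _ _ _ (hG e)).2 (hz.2 e), fun v _ => hz.1 v⟩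
    simp only [Qv, up3]
    ring
  · simp only [mem_coe, mem_product, Fintype.mem_piFinset, mem_erase, mem_univ, and_true,
      mem_filter, true_and, forall_true_left, not_not] at hw ⊢
    have h2 := k' w hw.1.1 hw.2
    refine ⟨h2, fun e => (ed_up3 _ h2 _ _ _ (hG e)).1 ?_⟩
    rw [k w h2 hw.1.2]
    exact hw.2.1 e
  · simp only [mem_coe, mem_product, Fintype.mem_piFinset, mem_erase, mem_univ, and_true] at hz
    exact Prod.ext rfl (funext fun v => funext fun t => inv_mul_cancel_left₀ (hz.1 v) _)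
  · simp only [mem_coe, mem_univ, mem_filter, true_and, forall_true_left, not_not] at hw
    exact k w (k' w hw.1.1 hw.2) hw.1.2

theorem sLc : SLc := by
  intro I E _ _ _ _ G hG F _ _
  rw [pos_eq G hG]
  simp only [cnt_eq, mul_sum]
  rw [sum_congr rfl fun (w : Tp3 I F) _ => by
    rw [ie, ie, powerset_univ, sum_mul_sum, sum_mul], sum_comm]
  refine sum_congr rfl fun R _ => ?_
  simp only [sum_mul]
  rw [sum_comm]
  refine sum_congr rfl fun S _ => sum_congr rfl fun w _ => ?_
  ring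

end Pool.Agent.MP_ea150c_mp.H16
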