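import Pool.Agent.MP_ea150c_mp.H20.SpecM

/-! The point count of the graph hypersurface and the count in position space. -/

namespace Pool.Agent.MP_ea150c_mp.H16

open Matrix Pool.Agent.MP_ea150c_mp.H20

variable {F E I : Type} [Field F] [Fintype E] [DecidableEq E] [Fintype I] [DecidableEq I]

theorem perpZU (B : Matrix E I F) :
    Perp (LinearMap.ker Bᵀ.mulVecLin) (LinearMap.range B.mulVecLin) := by
  intro u
  rw [LinearMap.mem_ker, mulVecLin_apply, mulVec_transpose]
  constructor
  · rintro h _ ⟨x, rfl⟩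
    rw [mulVecLin_apply, dotProduct_mulVec, h, zero_dotProduct]
  · intro h
    funext i
    have := h _ ⟨Pi.single i 1, rfl⟩
    rwa [mulVecLin_apply, dotProduct_mulVec, dotProduct_single, mul_one] at this

theorem perpUZ (B : Matrix E I F) :
    Perp (LinearMap.range B.mulVecLin) (LinearMap.ker Bᵀ.mulVecLin) := by
  intro u
  refine ⟨fun hu y hy => by rw [dotProduct_comm]; exact (perpZU B y).1 hy u hu, fun h => ?_⟩
  by_contra hu
  obtain ⟨f, h1, h2⟩ := Submodule.exists_le_ker_of_notMem hu
  have e : ∀ v, v ⬝ᵥ (fun e => f (Pi.single e 1)) = f v := fun v => by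
    conv_rhs => rw [pi_eq_sum_univ' v, map_sum]
    simp only [dotProduct, map_smul, smul_eq_mul]
  refine h1 ((e u).symm.trans (h _ ((perpZU B _).2 fun y hy => ?_)))
  rw [dotProduct_comm, e]
  exact h2 hy

theorem inc_mulVec (s t : E → Option I) (x : I → F) (e : E) :
    (inc F s t *ᵥ x) e = (s e).elim 0 x - (t e).elim 0 x := by
  have k : ∀ o : Option I, ∑ i, (if o = some i then (1 : F) else 0) * x i = o.elim 0 x := by
    rintro (_ | j)
    · simp
    · simp
  simp only [mulVec, dotProduct, inc, of_apply, sub_mul, Finset.sum_sub_distrib, k]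

theorem nq_eq [Fintype F] [DecidableEq F] (G : H49.PG I E)
    (h : Function.Injective (inc F G.src G.tgt).mulVecLin) :
    NQ 2 (LinearMap.range (inc F G.src G.tgt).mulVecLin) Finset.univ = G.N4pos F := by
  let φ := LinearEquiv.ofInjective _ h
  have hφ : ∀ x e, (φ x : E → F) e = (G.src e).elim 0 x - (G.tgt e).elim 0 x := fun x e =>
    inc_mulVec G.src G.tgt x e
  let ψ : (I → Fin 4 → F) ≃ (Fin 2 → LinearMap.range (inc F G.src G.tgt).mulVecLin ×
      LinearMap.range (inc F G.src G.tgt).mulVecLin) :=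
    { toFun := fun x => ![(φ fun i => x i 0, φ fun i => x i 3), (φ fun i => x i 1, φ fun i => x i 2)]
      invFun := fun y i => ![φ.symm (y 0).1 i, φ.symm (y 1).1 i, φ.symm (y 1).2 i, φ.symm (y 0).2 i]
      left_inv := fun x => by
        funext i k
        fin_cases k <;> simp
      right_inv := fun y => by
        funext k
        fin_cases k <;> simp }
  have k : ∀ (o : Option I) (x : I → Fin 4 → F) (j : Fin 4),
      o.elim 0 x j = o.elim 0 fun i => x i j := by
    rintro (_ | i) x j <;> rfl
  unfold NQ H49.PG.N4pos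
  rw [← Fintype.card_subtype, ← Nat.card_eq_fintype_card]
  refine (Nat.card_congr (ψ.subtypeEquiv fun x => ?_)).symm
  simp only [Finset.mem_univ, forall_true_left, Fin.sum_univ_two, ψ, Equiv.coe_fn_mk, cons_val_zero,
    cons_val_one, hφ, Pi.sub_apply, k]

theorem ofM : OfM := by
  intro hD hA hT hM I E _ _ _ _ G h3 hE hc F _ _
  classical
  have hi : Function.Injective (inc F G.src G.tgt).mulVecLin :=
    (injective_iff_map_eq_zero _).2 fun x hx =>
      (hT F E I G.src G.tgt Finset.univ).1.1 hc x fun e _ => congrFun hx e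
  have hU : Module.finrank F (LinearMap.range (inc F G.src G.tgt).mulVecLin) = Fintype.card I := by
    rw [LinearMap.finrank_range_of_inj hi, Module.finrank_fintype_fun_eq_card]
  have hZ : Module.finrank F (LinearMap.ker (inc F G.src G.tgt)ᵀ.mulVecLin) = Fintype.card I := by
    have h1 := LinearMap.finrank_range_add_finrank_ker (inc F G.src G.tgt)ᵀ.mulVecLin
    have h2 : Module.finrank F (LinearMap.range (inc F G.src G.tgt)ᵀ.mulVecLin) = _ :=
      (rank_transpose (inc F G.src G.tgt)).trans hU
    rw [h2, Module.finrank_fintype_fun_eq_card] at h1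
    omega
  have h1 := hA F E _ _ _ h3 hE hU hZ (perpUZ _) (perpZU _)
  have h2 := (hD F E (LinearMap.range (inc F G.src G.tgt).mulVecLin)).1 Finset.univ
  rw [nq_eq G hi] at h1 h2
  rw [hU, min_eq_left (by omega)] at h2
  refine ⟨?_, h2⟩
  rw [← Nat.card_congr (Equiv.subtypeEquivRight (hM F E I G.src G.tgt hc))] at h1
  have h4 : XG G.src G.tgt F + Nat.card {α : E → F // Psi G.src G.tgt α ≠ 0} =
      Fintype.card F ^ Fintype.card E := by
    unfold XG
    rw [← Nat.card_sum, Nat.card_congr (Equiv.sumCompl fun α : E → F => Psi G.src G.tgt α = 0),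
      Nat.card_eq_fintype_card, Fintype.card_fun]
  have h5 : (Fintype.card F : ℤ) ^ 3 ∣ (Fintype.card F : ℤ) ^ Fintype.card E :=
    pow_dvd_pow _ (by omega)
  have h6 : (XG G.src G.tgt F : ℤ) + G.N4pos F = (Fintype.card F : ℤ) ^ Fintype.card E -
      ((Nat.card {α : E → F // Psi G.src G.tgt α ≠ 0} : ℤ) - G.N4pos F) := by
    rw [← Nat.cast_pow, ← h4]
    push_cast
    ring
  rw [h6]
  exact dvd_sub h5 h1

end Pool.Agent.MP_ea150c_mp.H16
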