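import Pool.Agent.MP_ea150c_mp.H20.SpecR

/-! The theorem of Borel and Dwork for trace sequences. -/

namespace Pool.Agent.MP_ea150c_mp.H16

open Polynomial Pool.Agent.MP_ea150c_mp.H20

theorem pow_card_le {K : Type} (s : Multiset K) (f : K → ℝ) (P : K → Prop) [DecidablePred P]
    (B : ℝ) (hB : 0 ≤ B) (h1 : ∀ γ, 1 ≤ f γ) (h2 : ∀ γ, P γ → B ≤ f γ) :
    B ^ (s.filter P).card ≤ (s.map f).prod := by
  induction s using Multiset.induction_on with
  | empty => simp
  | cons a s ih =>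
    rw [Multiset.map_cons, Multiset.prod_cons]
    by_cases h : P a
    · rw [Multiset.filter_cons_of_pos _ h, Multiset.card_cons, pow_succ']
      exact mul_le_mul (h2 a h) ih (pow_nonneg hB _) (zero_le_one.trans (h1 a))
    · rw [Multiset.filter_cons_of_neg _ h]
      exact ih.trans (le_mul_of_one_le_left ((pow_nonneg hB _).trans ih) (h1 a))

variable (p : ℕ) [Fact p.Prime]

theorem norm_io (x : ℤ_[p]) : ‖io p x‖ = ‖x‖ := by
  rw [IsScalarTower.algebraMap_apply ℤ_[p] ℚ_[p] (Kp p)]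
  exact PadicAlgCl.norm_extends p _

theorem norm_io_le {x : ℤ_[p]} {n : ℕ} (h : (p : ℤ_[p]) ^ n ∣ x) : ‖io p x‖ ≤ ((p : ℝ) ^ n)⁻¹ := by
  rw [norm_io, ← zpow_natCast, ← zpow_neg]
  exact (PadicInt.norm_le_pow_iff_mem_span_pow x n).2 (Ideal.mem_span_singleton.2 h)

open Classical in
theorem roots_of_tr (hP : SPow) (hG : SGN) (d : ℕ → ℕ) (t : ℕ → ℤ_[p]) (ht : Tr p d t) (h : ℕ)
    (h0 : 0 < h) : ∃ s : Multiset (Kp p), (∀ γ ∈ s, ‖γ‖ ≤ 1) ∧
      (s.filter fun γ => ((p : ℝ) ^ h)⁻¹ < ‖γ‖).card ≤ 2 * d (2 * h) ∧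
      ∀ k, 1 ≤ k → io p (t k) = ps s k := by
  obtain ⟨ι, _, _, M, w, hw, hd, ht⟩ := ht
  have hp : (1 : ℝ) < p := by exact_mod_cast (Fact.out : p.Prime).one_lt
  have hp0 : (0 : ℝ) < p := zero_lt_one.trans hp
  refine ⟨(M.map (io p)).charpoly.roots, fun γ hγ => ?_, ?_, fun k hk => ?_⟩
  · have h1 := hG p ι (M.map (io p)) (fun _ => 1) (fun _ => 1) 1 one_pos (fun _ => one_pos)
      (fun i j => by
        rw [Matrix.map_apply, norm_io]
        exact mul_le_mul_of_nonneg_right (PadicInt.norm_le_one _) zero_le_one)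
    have h2 := (pow_card_le _ (fun γ : Kp p => max 1 (‖γ‖ * 1)) (fun x => γ = x) ‖γ‖
      (norm_nonneg _) (fun _ => le_max_left _ _)
      (fun x hx => by rw [hx, mul_one]; exact le_max_right _ _)).trans h1
    simp only [mul_one, max_self, Finset.prod_const_one] at h2
    refine (pow_le_one_iff_of_nonneg (norm_nonneg _) ?_).1 h2
    exact (Multiset.card_pos_iff_exists_mem.2 ⟨γ, Multiset.mem_filter.2 ⟨hγ, rfl⟩⟩).ne'
  · have h1 := hG p ι (M.map (io p)) (fun i => ((p : ℝ) ^ w i)⁻¹) (fun _ => 1) ((p : ℝ) ^ (2 * h))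
      (by positivity) (fun _ => one_pos) (fun i j => by
        rw [Matrix.map_apply]
        exact mul_le_mul_of_nonneg_right (norm_io_le p (hw i j)) zero_le_one)
    have h2 := (pow_card_le _ (fun γ : Kp p => max 1 (‖γ‖ * (p : ℝ) ^ (2 * h)))
      (fun γ => ((p : ℝ) ^ h)⁻¹ < ‖γ‖) ((p : ℝ) ^ h) (by positivity) (fun _ => le_max_left _ _)
      (fun x hx => by
        refine le_trans ?_ (le_max_right _ _)
        rw [inv_lt_iff_one_lt_mul₀ (by positivity)] at hx
        rw [two_mul, pow_add, ← mul_assoc]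
        exact le_mul_of_one_le_left (by positivity) hx.le)).trans h1
    have h3 : ∏ i, max 1 (((p : ℝ) ^ w i)⁻¹ * (p : ℝ) ^ (2 * h)) ≤
        ∏ i, if w i ≤ 2 * h then (p : ℝ) ^ (2 * h) else 1 := by
      refine Finset.prod_le_prod (fun i _ => by positivity) fun i _ => ?_
      split_ifs with hi
      · exact max_le (one_le_pow₀ hp.le) (mul_le_of_le_one_left (by positivity)
          (inv_le_one_of_one_le₀ (one_le_pow₀ hp.le)))
      · refine max_le le_rfl ?_
        rw [inv_mul_le_iff₀ (by positivity), mul_one]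
        exact pow_le_pow_right₀ hp.le (by omega)
    rw [Finset.prod_ite, Finset.prod_const_one, mul_one, Finset.prod_const] at h3
    have h4 := h2.trans h3
    rw [← pow_mul, ← pow_mul, pow_le_pow_iff_right₀ hp] at h4
    have h5 := h4.trans (Nat.mul_le_mul_left _ (hd (2 * h)))
    rw [mul_comm 2 h, mul_assoc] at h5
    rw [mul_comm 2 h]
    exact Nat.le_of_mul_le_mul_left h5 h0
  · rw [ht k hk, ← hP, AddMonoidHom.map_trace, Matrix.map_pow]

theorem ofRat : OfRat := by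
  intro hP hG hH hK p _ c C hc hm
  obtain ⟨t, ⟨d, hd⟩, ht⟩ := hm
  obtain ⟨m, n₀, h⟩ := hH p c C (4 * d (2 * (C + 1))) hc fun S => by
    obtain ⟨a, b, ha, hb, hab⟩ := hd S
    obtain ⟨s₁, a1, a2, a3⟩ := roots_of_tr p hP hG d a ha (C + 1) C.succ_pos
    obtain ⟨s₂, b1, b2, b3⟩ := roots_of_tr p hP hG d b hb (C + 1) C.succ_pos
    refine ⟨s₁, s₂, fun γ hγ => (Multiset.mem_add.1 hγ).elim (a1 γ) (b1 γ), ?_, fun k hk => ?_⟩
    · rw [Multiset.filter_add, Multiset.card_add]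
      omega
    · have h1 := norm_io_le p (ht S k hk)
      rwa [hab k hk, map_sub, map_sub, map_intCast, a3 k hk, b3 k hk] at h1
  exact hK c m n₀ h

end Pool.Agent.MP_ea150c_mp.H16
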